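import Mathlib

set_option autoImplicit false

/-! # Admissible sets (helper310) -/

open Finset

namespace Pool.Agent.U310.Pat

/-- for every prime `p` some translate of `H` contains no multiple of `p` -/
def Adm (H : Set ℕ) : Prop := ∀ p : ℕ, p.Prime → ∃ c : ℕ, ∀ h ∈ H, ¬ p ∣ c + h

/-- for every prime `p ≤ y` some translate of `H` contains no multiple of `p` -/
def AdmL (y : ℕ) (H : Set ℕ) : Prop := ∀ p : ℕ, p.Prime → p ≤ y → ∃ c : ℕ, ∀ h ∈ H, ¬ p ∣ c + h

lemma Adm.level {H : Set ℕ} (h : Adm H) (y : ℕ) : AdmL y H := fun p hp _ => h p hp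

lemma primorial_pos' (y : ℕ) : 0 < primorial y := primorial_pos y

lemma dvd_primorial' {p y : ℕ} (hp : p.Prime) (h : p ≤ y) : p ∣ primorial y := by
  unfold primorial
  exact Finset.dvd_prod_of_mem (fun p => p) (mem_filter.2 ⟨mem_range.2 (by omega), hp⟩)

/-- the Chinese remainder theorem -/
theorem exists_start {H : Set ℕ} {y : ℕ} (hH : AdmL y H) :
    ∃ a, a < primorial y ∧ ∀ p : ℕ, p.Prime → p ≤ y → ∀ h ∈ H, ¬ p ∣ a + h := by
  classical
  choose! c hc using hH
  set t := (range (y + 1)).filter Nat.Prime with ht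
  have hs : ∀ i ∈ t, i ≠ 0 := fun i hi => (mem_filter.1 hi).2.ne_zero
  have hpp : Set.Pairwise (↑t) (Function.onFun Nat.Coprime (fun i : ℕ => i)) := by
    intro p hp q hq hpq
    exact (Nat.coprime_primes (mem_filter.1 hp).2 (mem_filter.1 hq).2).2 hpq
  obtain ⟨k, hk⟩ := Nat.chineseRemainderOfFinset c (fun i => i) t hs hpp
  refine ⟨k % primorial y, Nat.mod_lt _ (primorial_pos y), fun p hp hpy h hh hdvd => ?_⟩
  have h1 := hk p (mem_filter.2 ⟨mem_range.2 (by omega), hp⟩)
  have h2 : k % primorial y ≡ k [MOD p] :=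
    (Nat.mod_modEq k (primorial y)).of_dvd (dvd_primorial' hp hpy)
  have h3 : k % primorial y + h ≡ c p + h [MOD p] := (h2.trans h1).add_right h
  exact hc p hp hpy h hh ((Nat.ModEq.dvd_iff h3 dvd_rfl).1 hdvd)

/-- all translates by multiples of the primorial -/
theorem exists_starts {H : Set ℕ} {y : ℕ} (hH : AdmL y H) :
    ∃ a, a < primorial y ∧ ∀ p : ℕ, p.Prime → p ≤ y → ∀ n, ∀ h ∈ H, ¬ p ∣ a + primorial y * n + h := by
  obtain ⟨a, ha, h1⟩ := exists_start hH
  refine ⟨a, ha, fun p hp hpy n h hh hdvd => h1 p hp hpy h hh ?_⟩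
  have h2 : a + primorial y * n + h = (a + h) + primorial y * n := by ring
  rw [h2] at hdvd
  exact (Nat.dvd_add_left ((dvd_primorial' hp hpy).mul_right n)).1 hdvd

open Classical in
/-- the number of `n ∈ (m, m + k]` without prime factors at most `k` -/
noncomputable def hc (m k : ℕ) : ℕ := ((Ioc m (m + k)).filter (fun n => ∀ p : ℕ, p.Prime → p ≤ k → ¬ p ∣ n)).card

lemma hc_le (m k : ℕ) : hc m k ≤ k := by
  classical
  unfold hc
  refine (card_filter_le _ _).trans ?_
  simp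

/-- `max_m h_m(k)` -/
noncomputable def Hm (k : ℕ) : ℕ := sSup (Set.range fun m => hc m k)

lemma Hm_bdd (k : ℕ) : BddAbove (Set.range fun m => hc m k) :=
  ⟨k, by rintro _ ⟨m, rfl⟩; exact hc_le m k⟩

lemma le_Hm (m k : ℕ) : hc m k ≤ Hm k := le_csSup (Hm_bdd k) ⟨m, rfl⟩

lemma exists_Hm (k : ℕ) : ∃ m, hc m k = Hm k := by
  have := Nat.sSup_mem (Set.range_nonempty (fun m => hc m k)) (Hm_bdd k)
  exact this

/-- an admissible subset of `[1, k]` has at most `Hm k` elements -/
lemma card_le_of_adm {k : ℕ} {H : Finset ℕ} (hk : ∀ h ∈ H, 1 ≤ h ∧ h ≤ k) (hH : Adm (H : Set ℕ)) :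
    H.card ≤ Hm k := by
  classical
  obtain ⟨a, -, h1⟩ := exists_start (hH.level k)
  refine le_trans ?_ (le_Hm a k)
  unfold hc
  refine card_le_card_of_injOn (fun h => a + h) ?_ (fun x _ y _ h => by simpa using h)
  intro h hh
  have := hk h hh
  show a + h ∈ _
  rw [Finset.mem_coe, mem_filter, mem_Ioc]
  exact ⟨⟨by omega, by omega⟩, fun p hp hpk => h1 p hp hpk h hh⟩

/-- a set free of multiples of the small primes is admissible -/
lemma adm_of_rough {k m : ℕ} {H : Set ℕ} (hk : ∀ h ∈ H, 1 ≤ h ∧ h ≤ k)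
    (h : ∀ h ∈ H, ∀ p : ℕ, p.Prime → p ≤ k → ¬ p ∣ m + h) : Adm H := by
  intro p hp
  rcases le_or_gt p k with h1 | h1
  · exact ⟨m, fun x hx => h x hx p hp h1⟩
  · refine ⟨0, fun x hx hdvd => ?_⟩
    have h2 := hk x hx
    rw [zero_add] at hdvd
    have := Nat.le_of_dvd (by omega) hdvd
    omega

/-- the extremal admissible set -/
lemma exists_adm (k : ℕ) : ∃ H : Finset ℕ, (∀ h ∈ H, 1 ≤ h ∧ h ≤ k) ∧ Adm (H : Set ℕ) ∧ H.card = Hm k := by
  classical
  obtain ⟨m, hm⟩ := exists_Hm k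
  set S := (Ioc m (m + k)).filter (fun n => ∀ p : ℕ, p.Prime → p ≤ k → ¬ p ∣ n) with hS
  have h1 : ∀ h ∈ S.image (fun n => n - m), 1 ≤ h ∧ h ≤ k := by
    intro h hh
    obtain ⟨n, hn, rfl⟩ := mem_image.1 hh
    rw [hS, mem_filter, mem_Ioc] at hn
    omega
  refine ⟨S.image (fun n => n - m), h1, ?_, ?_⟩
  · refine adm_of_rough (k := k) (m := m) h1 ?_
    intro h hh
    obtain ⟨n, hn, rfl⟩ := mem_image.1 (Finset.mem_coe.1 hh)
    rw [hS, mem_filter, mem_Ioc] at hn
    intro p hp hpk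
    have : m + (n - m) = n := by omega
    rw [this]
    exact hn.2 p hp hpk
  · rw [card_image_of_injOn]
    · rw [← hm]
      unfold hc
      rw [hS]
    · intro x hx y hy hxy
      rw [hS, Finset.mem_coe, mem_filter, mem_Ioc] at hx hy
      simp only at hxy
      omega

lemma count_lower (a : ℕ) (t : ℕ) :
    ((Ico 1 (1 + a * t)).filter (fun x => a.Coprime x)).card = a.totient * t := by
  induction t with
  | zero => simp
  | succ t ih =>
    have h1 : Ico 1 (1 + a * (t + 1)) = Ico 1 (1 + a * t) ∪ Ico (1 + a * t) (1 + a * t + a) := by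
      ext x
      simp only [mem_Ico, mem_union]
      have : a * (t + 1) = a * t + a := by ring
      omega
    have h2 : Disjoint ((Ico 1 (1 + a * t)).filter (fun x => a.Coprime x))
        ((Ico (1 + a * t) (1 + a * t + a)).filter (fun x => a.Coprime x)) := by
      rw [Finset.disjoint_left]
      intro x hx hx'
      rw [mem_filter, mem_Ico] at hx hx'
      omega
    rw [h1, filter_union, card_union_of_disjoint h2, ih, Nat.filter_coprime_Ico_eq_totient]
    ring

lemma coprime_primorial {y n : ℕ} : (primorial y).Coprime n ↔ ∀ p : ℕ, p.Prime → p ≤ y → ¬ p ∣ n := by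
  constructor
  · intro h p hp hpy hdvd
    exact Nat.not_coprime_of_dvd_of_dvd hp.one_lt (dvd_primorial' hp hpy) hdvd h
  · intro h
    unfold primorial
    refine Nat.Coprime.prod_left fun p hp => ?_
    rw [mem_filter, mem_range] at hp
    exact (Nat.Prime.coprime_iff_not_dvd hp.2).2 (h p hp.2 (by omega))

/-- sieving by the primes up to `y` only leaves more than `Hm k` elements of `[1, k]` -/
theorem Hm_lt (y : ℕ) : ∃ k0 : ℕ, ∀ k, k0 ≤ k →
    Hm k < ((Ico 1 (k + 1)).filter (fun x => (primorial y).Coprime x)).card := by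
  classical
  obtain ⟨q, hq, hqp⟩ := Nat.exists_infinite_primes (y + 1)
  obtain ⟨P, hP⟩ : ∃ P, P = primorial y := ⟨_, rfl⟩
  have hP0 : 0 < P := by rw [hP]; exact primorial_pos y
  have hcop : Nat.Coprime P q := by
    rw [hP, coprime_primorial]
    intro p hp hpy hdvd
    have := (Nat.prime_dvd_prime_iff_eq hp hqp).1 hdvd
    omega
  refine ⟨P * q * q, fun k hk => ?_⟩
  obtain ⟨t, ht⟩ : ∃ t, t = k / (P * q) := ⟨_, rfl⟩
  have hPq : 0 < P * q := Nat.mul_pos hP0 hqp.pos
  have hqk : q ≤ k := by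
    calc q = 1 * 1 * q := by ring
      _ ≤ P * q * q := by gcongr <;> [exact hP0; exact hqp.pos]
      _ ≤ k := hk
  have hyk : y ≤ k := by omega
  have htq : q ≤ t := by
    rw [ht, Nat.le_div_iff_mul_le hPq]
    calc q * (P * q) = P * q * q := by ring
      _ ≤ k := hk
  obtain ⟨m, hm⟩ := exists_Hm k
  have h1 : hc m k ≤ (P * q).totient * (k / (P * q) + 1) := by
    refine le_trans ?_ (Nat.Ico_filter_coprime_le (m + 1) k hPq.ne')
    unfold hc
    refine card_le_card ?_
    intro n hn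
    rw [mem_filter, mem_Ioc] at hn
    rw [mem_filter, mem_Ico]
    refine ⟨by omega, ?_⟩
    rw [Nat.coprime_mul_iff_left]
    refine ⟨?_, (Nat.Prime.coprime_iff_not_dvd hqp).2 (hn.2 q hqp hqk)⟩
    rw [hP, coprime_primorial]
    exact fun p hp hpy => hn.2 p hp (by omega)
  have h2 : P.totient * (q * t) ≤ ((Ico 1 (k + 1)).filter (fun x => (primorial y).Coprime x)).card := by
    rw [← count_lower P (q * t), ← hP]
    refine card_le_card ?_
    intro n hn
    rw [mem_filter, mem_Ico] at hn ⊢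
    refine ⟨⟨hn.1.1, ?_⟩, hn.2⟩
    have h3 : P * (q * t) ≤ k := by
      rw [← mul_assoc, ht]
      exact Nat.mul_div_le k (P * q)
    omega
  rw [← hm]
  refine lt_of_le_of_lt h1 (lt_of_lt_of_le ?_ h2)
  rw [← ht, Nat.totient_mul hcop, Nat.totient_prime hqp, mul_assoc]
  have hφ : 0 < P.totient := Nat.totient_pos.2 hP0
  refine Nat.mul_lt_mul_of_pos_left ?_ hφ
  obtain ⟨r, hr⟩ : ∃ r, q = r + 1 := ⟨q - 1, by have := hqp.pos; omega⟩
  rw [hr] at htq ⊢
  rw [Nat.add_sub_cancel]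
  nlinarith

end Pool.Agent.U310.Pat
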