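import Mathlib
import Pool.Agent.R528.RM.Blocks

set_option autoImplicit false
set_option linter.unusedSectionVars false

/-! # Prescribed patterns in adapted random sets (helper310) -/

open MeasureTheory Filter Set
open scoped ENNReal Topology

namespace Pool.Agent.U310.Pat

open Pool.Agent.R528.RM

variable {Ω : Type} {m0 : MeasurableSpace Ω} {μ : Measure Ω} [IsProbabilityMeasure μ]
  {ℱ : Filtration ℕ m0} {A : ℕ → Set Ω}

/-- among `t + 1, ..., t + j` exactly the elements of `T` are chosen -/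
def PE (A : ℕ → Set Ω) (T : Set ℕ) (t j : ℕ) : Set Ω := {ω | ∀ m, t < m → m ≤ t + j → (ω ∈ A m ↔ m ∈ T)}

lemma PE_zero (T : Set ℕ) (t : ℕ) : PE A T t 0 = univ := by
  ext ω
  simp only [PE, mem_ofPred_eq, mem_univ, iff_true]
  intro m h1 h2
  omega

lemma PE_succ (T : Set ℕ) (t j : ℕ) :
    PE A T t (j + 1) = {ω | ω ∈ A (t + 1) ↔ t + 1 ∈ T} ∩ PE A T (t + 1) j := by
  ext ω
  simp only [PE, mem_ofPred_eq, mem_inter_iff]
  constructor
  · intro h
    exact ⟨h (t + 1) (by omega) (by omega), fun m h1 h2 => h m (by omega) (by omega)⟩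
  · rintro ⟨h1, h2⟩ m h3 h4
    rcases Nat.eq_or_lt_of_le (Nat.succ_le_of_lt h3) with h | h
    · have h : m = t + 1 := h.symm
      rw [h]; exact h1
    · exact h2 m h (by omega)

lemma PE_meas (hA : ∀ n, MeasurableSet[ℱ n] (A n)) (T : Set ℕ) (t j : ℕ) :
    MeasurableSet[ℱ (t + j)] (PE A T t j) := by
  classical
  induction j generalizing t with
  | zero => rw [PE_zero]; exact @MeasurableSet.univ _ (ℱ (t + 0))
  | succ j ih =>
    rw [PE_succ]
    have h1 := ih (t + 1)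
    have e : t + 1 + j = t + (j + 1) := by ring
    rw [e] at h1
    have hA1 : MeasurableSet[ℱ (t + (j + 1))] (A (t + 1)) := ℱ.mono (by omega) _ (hA (t + 1))
    refine @MeasurableSet.inter _ (ℱ (t + (j + 1))) _ _ ?_ h1
    by_cases h : t + 1 ∈ T
    · have : {ω | ω ∈ A (t + 1) ↔ t + 1 ∈ T} = A (t + 1) := by
        ext ω; simp [h]
      rw [this]; exact hA1
    · have : {ω | ω ∈ A (t + 1) ↔ t + 1 ∈ T} = (A (t + 1))ᶜ := by
        ext ω; simp [h]
      rw [this]; exact @MeasurableSet.compl _ _ (ℱ (t + (j + 1))) hA1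

open Classical in
/-- the factor of the position `m` -/
noncomputable def fac (l u : ℕ → ℝ) (T : Set ℕ) (m : ℕ) : ℝ := if m ∈ T then l m else 1 - u m

lemma fac_nonneg {l u : ℕ → ℝ} (hl0 : ∀ m, 0 ≤ l m) (hu1 : ∀ m, u m ≤ 1) (T : Set ℕ) (m : ℕ) :
    0 ≤ fac l u T m := by
  classical
  unfold fac
  split_ifs
  · exact hl0 m
  · linarith [hu1 m]

lemma fac_le {l u : ℕ → ℝ} (hl1 : ∀ m, l m ≤ 1) (hu0 : ∀ m, 0 ≤ u m) (T : Set ℕ) (m : ℕ) :
    fac l u T m ≤ 1 := by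
  classical
  unfold fac
  split_ifs
  · exact hl1 m
  · linarith [hu0 m]

/-- lower bound for the probability of a prescribed pattern or a violation -/
theorem pat_ge (hA : ∀ n, MeasurableSet[ℱ n] (A n)) {V : ℕ → Set Ω}
    (hV : ∀ n, MeasurableSet[ℱ n] (V n)) {l u : ℕ → ℝ} (hl0 : ∀ m, 0 ≤ l m) (hl1 : ∀ m, l m ≤ 1)
    (hu0 : ∀ m, 0 ≤ u m) (hu1 : ∀ m, u m ≤ 1) (T : Set ℕ) (j : ℕ) :
    ∀ t, (∀ n, t ≤ n → n < t + j → ∀ ω, ω ∉ V n →
        l (n + 1) ≤ dens μ ℱ A n ω ∧ dens μ ℱ A n ω ≤ u (n + 1)) →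
      ∀ B, MeasurableSet[ℱ t] B → (∏ m ∈ Finset.Ioc t (t + j), fac l u T m) * μ.real B ≤
        μ.real (B ∩ (PE A T t j ∪ WV V t j)) := by
  classical
  induction j with
  | zero =>
    intro t _ B _
    rw [PE_zero]
    simp
  | succ j ih =>
    intro t hbd B hB
    have hV0 : MeasurableSet (V t) := ℱ.le _ _ (hV t)
    have hBV : MeasurableSet[ℱ t] (B \ V t) := @MeasurableSet.diff _ (ℱ t) _ _ hB (hV t)
    have hA1 : MeasurableSet[ℱ (t + 1)] (A (t + 1)) := hA (t + 1)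
    have hA0 : MeasurableSet (A (t + 1)) := ℱ.le _ _ (hA _)
    have hbd' : ∀ n, t + 1 ≤ n → n < t + 1 + j → ∀ ω, ω ∉ V n →
        l (n + 1) ≤ dens μ ℱ A n ω ∧ dens μ ℱ A n ω ≤ u (n + 1) :=
      fun n h1 h2 => hbd n (by omega) (by omega)
    have hlow := lower_meas (μ := μ) hA t hBV (l := l (t + 1)) (fun ω hω => (hbd t le_rfl (by omega) ω hω.2).1)
    have hupp := upper_meas (μ := μ) hA t hBV (u := u (t + 1)) (fun ω hω => (hbd t le_rfl (by omega) ω hω.2).2)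
    have hsplit := measureReal_inter_add_sdiff (μ := μ) (s := B \ V t) hA0
    -- the next set
    obtain ⟨C, hC, hCm, hCV⟩ : ∃ C : Set Ω, C = (B \ V t) ∩ {ω | ω ∈ A (t + 1) ↔ t + 1 ∈ T} ∧
        MeasurableSet[ℱ (t + 1)] C ∧ fac l u T (t + 1) * μ.real (B \ V t) ≤ μ.real C := by
      by_cases h : t + 1 ∈ T
      · refine ⟨(B \ V t) ∩ A (t + 1), ?_, ?_, ?_⟩
        · ext ω; simp [h]
        · exact @MeasurableSet.inter _ (ℱ (t + 1)) _ _ (ℱ.mono (Nat.le_succ t) _ hBV) hA1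
        · unfold fac
          rw [if_pos h]
          exact hlow
      · refine ⟨(B \ V t) \ A (t + 1), ?_, ?_, ?_⟩
        · ext ω; simp [h]
        · exact @MeasurableSet.diff _ (ℱ (t + 1)) _ _ (ℱ.mono (Nat.le_succ t) _ hBV) hA1
        · unfold fac
          rw [if_neg h]
          linarith
    have h1 := ih (t + 1) hbd' C hCm
    set X : Set Ω := B ∩ (PE A T t (j + 1) ∪ WV V t (j + 1)) with hX
    have hXV : μ.real X = μ.real (X ∩ V t) + μ.real (X \ V t) :=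
      (measureReal_inter_add_sdiff (μ := μ) (s := X) hV0).symm
    have e1 : X ∩ V t = B ∩ V t := by
      ext ω
      simp only [hX, WV_succ, mem_inter_iff, mem_union]
      tauto
    have e2 : C ∩ (PE A T (t + 1) j ∪ WV V (t + 1) j) ⊆ X \ V t := by
      rw [hC]
      rintro ω ⟨⟨⟨h2, h3⟩, h4⟩, h5⟩
      refine ⟨⟨h2, ?_⟩, h3⟩
      rcases h5 with h5 | h5
      · left
        rw [PE_succ]
        exact ⟨h4, h5⟩
      · right
        rw [WV_succ]
        exact Or.inr h5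
    have hBVs : μ.real B = μ.real (B ∩ V t) + μ.real (B \ V t) :=
      (measureReal_inter_add_sdiff (μ := μ) (s := B) hV0).symm
    have h3 : μ.real (C ∩ (PE A T (t + 1) j ∪ WV V (t + 1) j)) ≤ μ.real (X \ V t) :=
      measureReal_mono e2
    have hprod : ∏ m ∈ Finset.Ioc t (t + (j + 1)), fac l u T m =
        fac l u T (t + 1) * ∏ m ∈ Finset.Ioc (t + 1) (t + 1 + j), fac l u T m := by
      have h4 : Finset.Ioc t (t + (j + 1)) = insert (t + 1) (Finset.Ioc (t + 1) (t + 1 + j)) := by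
        ext m
        simp only [Finset.mem_Ioc, Finset.mem_insert]
        omega
      rw [h4, Finset.prod_insert (by simp)]
    have hq0 : 0 ≤ ∏ m ∈ Finset.Ioc (t + 1) (t + 1 + j), fac l u T m :=
      Finset.prod_nonneg fun m _ => fac_nonneg hl0 hu1 T m
    have hq1 : ∏ m ∈ Finset.Ioc (t + 1) (t + 1 + j), fac l u T m ≤ 1 :=
      Finset.prod_le_one (fun m _ => fac_nonneg hl0 hu1 T m) fun m _ => fac_le hl1 hu0 T m
    have hf0 := fac_nonneg hl0 hu1 T (t + 1)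
    have hf1 := fac_le hl1 hu0 T (t + 1)
    have hb1 : 0 ≤ μ.real (B ∩ V t) := measureReal_nonneg
    have hb2 : 0 ≤ μ.real (B \ V t) := measureReal_nonneg
    rw [hXV, e1, hprod, hBVs]
    set q := ∏ m ∈ Finset.Ioc (t + 1) (t + 1 + j), fac l u T m with hq
    have h5 : fac l u T (t + 1) * q * μ.real (B ∩ V t) ≤ μ.real (B ∩ V t) := by
      have h6 : fac l u T (t + 1) * q ≤ 1 := by nlinarith
      nlinarith
    have h7 : fac l u T (t + 1) * q * μ.real (B \ V t) ≤ μ.real (X \ V t) := by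
      calc fac l u T (t + 1) * q * μ.real (B \ V t) = q * (fac l u T (t + 1) * μ.real (B \ V t)) := by ring
        _ ≤ q * μ.real C := mul_le_mul_of_nonneg_left hCV hq0
        _ ≤ _ := h1
        _ ≤ _ := h3
    rw [mul_add]
    linarith

/-- upper bound for the probability that nothing is chosen, without violation -/
theorem none_le (hA : ∀ n, MeasurableSet[ℱ n] (A n)) {V : ℕ → Set Ω}
    (hV : ∀ n, MeasurableSet[ℱ n] (V n)) {l : ℕ → ℝ} (hl1 : ∀ m, l m ≤ 1) (j : ℕ) :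
    ∀ t, (∀ n, t ≤ n → n < t + j → ∀ ω, ω ∉ V n → l (n + 1) ≤ dens μ ℱ A n ω) →
      ∀ B, MeasurableSet[ℱ t] B → μ.real ((B ∩ PE A ∅ t j) \ WV V t j) ≤
        (∏ m ∈ Finset.Ioc t (t + j), (1 - l m)) * μ.real B := by
  classical
  induction j with
  | zero =>
    intro t _ B _
    rw [PE_zero, WV_zero]
    simp
  | succ j ih =>
    intro t hbd B hB
    have hV0 : MeasurableSet (V t) := ℱ.le _ _ (hV t)
    have hBV : MeasurableSet[ℱ t] (B \ V t) := @MeasurableSet.diff _ (ℱ t) _ _ hB (hV t)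
    have hA1 : MeasurableSet[ℱ (t + 1)] (A (t + 1)) := hA (t + 1)
    have hA0 : MeasurableSet (A (t + 1)) := ℱ.le _ _ (hA _)
    have hlow := lower_meas (μ := μ) hA t hBV (l := l (t + 1)) (fun ω hω => hbd t le_rfl (by omega) ω hω.2)
    have hsplit := measureReal_inter_add_sdiff (μ := μ) (s := B \ V t) hA0
    have hC : MeasurableSet[ℱ (t + 1)] ((B \ V t) \ A (t + 1)) :=
      @MeasurableSet.diff _ (ℱ (t + 1)) _ _ (ℱ.mono (Nat.le_succ t) _ hBV) hA1
    have h1 := ih (t + 1) (fun n h1 h2 => hbd n (by omega) (by omega)) _ hC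
    have hsub : (B ∩ PE A ∅ t (j + 1)) \ WV V t (j + 1) ⊆
        (((B \ V t) \ A (t + 1)) ∩ PE A ∅ (t + 1) j) \ WV V (t + 1) j := by
      rintro ω ⟨⟨h2, h3⟩, h4⟩
      rw [WV_succ] at h4
      rw [PE_succ] at h3
      have h5 : ω ∉ V t := fun h => h4 (Or.inl h)
      have h6 : ω ∉ WV V (t + 1) j := fun h => h4 (Or.inr h)
      refine ⟨⟨⟨⟨h2, h5⟩, ?_⟩, h3.2⟩, h6⟩
      intro h7
      exact (h3.1.1 h7 : t + 1 ∈ (∅ : Set ℕ))
    have hprod : ∏ m ∈ Finset.Ioc t (t + (j + 1)), (1 - l m) =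
        (1 - l (t + 1)) * ∏ m ∈ Finset.Ioc (t + 1) (t + 1 + j), (1 - l m) := by
      have h4 : Finset.Ioc t (t + (j + 1)) = insert (t + 1) (Finset.Ioc (t + 1) (t + 1 + j)) := by
        ext m
        simp only [Finset.mem_Ioc, Finset.mem_insert]
        omega
      rw [h4, Finset.prod_insert (by simp)]
    have hq0 : 0 ≤ ∏ m ∈ Finset.Ioc (t + 1) (t + 1 + j), (1 - l m) :=
      Finset.prod_nonneg fun m _ => by linarith [hl1 m]
    have h8 : μ.real (B \ V t) ≤ μ.real B := measureReal_mono sdiff_subset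
    have h9 : μ.real ((B \ V t) \ A (t + 1)) ≤ (1 - l (t + 1)) * μ.real B := by
      have h10 : (1 - l (t + 1)) * μ.real (B \ V t) ≤ (1 - l (t + 1)) * μ.real B :=
        mul_le_mul_of_nonneg_left h8 (by linarith [hl1 (t + 1)])
      linarith
    calc _ ≤ _ := measureReal_mono hsub
      _ ≤ _ := h1
      _ ≤ (∏ m ∈ Finset.Ioc (t + 1) (t + 1 + j), (1 - l m)) * ((1 - l (t + 1)) * μ.real B) :=
          mul_le_mul_of_nonneg_left h9 hq0
      _ = _ := by rw [hprod]; ring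

/-- the violation event relative to a profile `ρ` -/
def VP (μ : Measure Ω) (ℱ : Filtration ℕ m0) (A : ℕ → Set Ω) (ρ : ℕ → ℝ) (δ : ℝ) (n : ℕ) : Set Ω :=
  {ω | ¬ ((1 - δ) * ρ (n + 1) ≤ dens μ ℱ A n ω ∧ dens μ ℱ A n ω ≤ (1 + δ) * ρ (n + 1))}

lemma VP_meas (ρ : ℕ → ℝ) (δ : ℝ) (n : ℕ) : MeasurableSet[ℱ n] (VP μ ℱ A ρ δ n) := by
  have h2 : MeasurableSet {x : ℝ | ¬ ((1 - δ) * ρ (n + 1) ≤ x ∧ x ≤ (1 + δ) * ρ (n + 1))} := by
    exact (measurableSet_Icc (a := (1 - δ) * ρ (n + 1)) (b := (1 + δ) * ρ (n + 1))).compl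
  exact (dens_meas n).measurable h2

lemma no_VP {ρ : ℕ → ℝ} {ω : Ω} (h : ∀ ε : ℝ, 0 < ε → ∀ᶠ n : ℕ in atTop,
      |dens μ ℱ A n ω - ρ (n + 1)| ≤ ε * ρ (n + 1)) {δ : ℝ} (hδ : 0 < δ) :
    ∃ n₀ : ℕ, ∀ n, n₀ ≤ n → ω ∉ VP μ ℱ A ρ δ n := by
  rw [← eventually_atTop]
  filter_upwards [h δ hδ] with n hn
  simp only [VP, mem_ofPred_eq, not_not]
  have := abs_le.1 hn
  constructor <;> linarith

/-- **prescribed patterns occur** -/
theorem patterns {ι : Type*} (hA : ∀ n, MeasurableSet[ℱ n] (A n)) (ρ : ℕ → ℝ) (hρ0 : ∀ n, 0 ≤ ρ n)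
    (hρ1 : ∀ n, 2 * ρ n ≤ 1)
    (hd : ∀ᵐ ω ∂μ, ∀ ε : ℝ, 0 < ε → ∀ᶠ n : ℕ in atTop, |dens μ ℱ A n ω - ρ (n + 1)| ≤ ε * ρ (n + 1))
    (I : ℕ → Finset ι) (s Q J M : ℕ → ι → ℕ) (T : ℕ → ι → ℕ → Set ℕ) (p : ℕ → ι → ℝ)
    (hs : ∀ᶠ X : ℕ in atTop, ∀ i ∈ I X, X ≤ s X i)
    (hJ : ∀ᶠ X : ℕ in atTop, ∀ i ∈ I X, J X i ≤ Q X i)
    (hp : ∀ᶠ X : ℕ in atTop, ∀ i ∈ I X, ∀ m < M X i, p X i ≤
      ∏ r ∈ Finset.Ioc (s X i + Q X i * m) (s X i + Q X i * m + J X i),
        fac (fun r => (1 - 1 / 2) * ρ r) (fun r => (1 + 1 / 2) * ρ r) (T X i m) r)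
    (hsum : ∀ᶠ X : ℕ in atTop, ∀ i ∈ I X,
      ((I X).card : ℝ) * Real.exp (-(M X i * p X i)) ≤ 1 / (X : ℝ) ^ 2) :
    ∀ᵐ ω ∂μ, ∀ᶠ X : ℕ in atTop, ∀ i ∈ I X, ∃ m < M X i,
      ω ∈ PE A (T X i m) (s X i + Q X i * m) (J X i) := by
  classical
  set V := VP μ ℱ A ρ (1 / 2) with hV
  have hVm : ∀ n, MeasurableSet[ℱ n] (V n) := fun n => VP_meas ρ _ n
  set D : ℕ → ι → ℕ → Set Ω := fun X i m =>
    PE A (T X i m) (s X i + Q X i * m) (J X i) ∪ WV V (s X i + Q X i * m) (J X i) with hD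
  set F : ℕ → ι → Set Ω := fun X i => RB (D X i) univ (M X i) with hF
  -- the probability of failure
  have hprob : ∀ᶠ X : ℕ in atTop, ∀ i ∈ I X, μ.real (F X i) ≤ Real.exp (-(M X i * p X i)) := by
    filter_upwards [hJ, hp] with X hJ hp i hi
    have hDm : ∀ m < M X i, MeasurableSet[ℱ (s X i + Q X i * (m + 1))] (D X i m) := by
      intro m _
      have hle : s X i + Q X i * m + J X i ≤ s X i + Q X i * (m + 1) := by
        have := hJ i hi
        rw [mul_add, mul_one]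
        omega
      exact ℱ.mono hle _ (@MeasurableSet.union _ (ℱ (s X i + Q X i * m + J X i)) _ _
        (PE_meas hA _ _ _) (WV_meas hVm _ _))
    have h1 := RB_le (μ := μ) (ℱ := ℱ) (D := D X i) (B := univ) (s := s X i) (H := Q X i) (M := M X i)
      (@MeasurableSet.univ _ (ℱ (s X i))) hDm (p := p X i) (fun m hm C hC => by
        refine le_trans (mul_le_mul_of_nonneg_right (hp i hi m hm) measureReal_nonneg) ?_
        refine pat_ge (μ := μ) hA hVm (fun r => by have := hρ0 r; positivity) (fun r => ?_)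
          (fun r => by have := hρ0 r; positivity) (fun r => ?_) (T X i m) (J X i) _ ?_ C hC
        · have := hρ1 r; have := hρ0 r; linarith
        · have := hρ1 r; have := hρ0 r; linarith
        · intro n _ _ ω hω
          simp only [hV, VP, mem_ofPred_eq, not_not] at hω
          exact hω) (M X i) le_rfl
    simpa using h1
  have hmeas : ∀ X, μ.real (⋃ i ∈ I X, F X i) ≤ ∑ i ∈ I X, μ.real (F X i) :=
    fun X => measureReal_biUnion_finset_le _ _
  have hbound : ∀ᶠ X : ℕ in atTop, μ.real (⋃ i ∈ I X, F X i) ≤ 1 / (X : ℝ) ^ 2 := by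
    filter_upwards [hprob, hsum] with X h1 h2
    rcases Nat.eq_zero_or_pos (I X).card with h0 | h0
    · rw [Finset.card_eq_zero] at h0
      rw [h0]
      simp
    · refine (hmeas X).trans ?_
      have hc : (0 : ℝ) < (I X).card := by exact_mod_cast h0
      calc ∑ i ∈ I X, μ.real (F X i) ≤ ∑ i ∈ I X, (1 / (X : ℝ) ^ 2) / (I X).card := by
            refine Finset.sum_le_sum fun i hi => (h1 i hi).trans ?_
            rw [le_div_iff₀ hc, mul_comm]
            exact h2 i hi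
        _ = _ := by
            rw [Finset.sum_const, nsmul_eq_mul]
            field_simp
  have hfin : ∑' X : ℕ, μ (⋃ i ∈ I X, F X i) ≠ ∞ := by
    have h1 : Summable (fun X : ℕ => 1 / (X : ℝ) ^ 2) := by
      simpa using (Real.summable_one_div_nat_pow (p := 2)).2 (by norm_num)
    have h2 : Summable (fun X : ℕ => μ.real (⋃ i ∈ I X, F X i)) := by
      refine Summable.of_norm_bounded_eventually_nat h1 ?_
      filter_upwards [hbound] with X hX
      rw [Real.norm_of_nonneg measureReal_nonneg]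
      exact hX
    have h3 : ∑' X : ℕ, μ (⋃ i ∈ I X, F X i) = ENNReal.ofReal (∑' X : ℕ, μ.real (⋃ i ∈ I X, F X i)) := by
      rw [ENNReal.ofReal_tsum_of_nonneg (fun _ => measureReal_nonneg) h2]
      congr 1
      funext i
      exact (ofReal_measureReal (measure_ne_top _ _)).symm
    rw [h3]
    exact ENNReal.ofReal_ne_top
  filter_upwards [ae_eventually_notMem hfin, hd] with ω h1 h2
  obtain ⟨n₀, hn₀⟩ := no_VP h2 (show (0 : ℝ) < 1 / 2 by norm_num)
  filter_upwards [h1, eventually_ge_atTop n₀, hs] with X hX hXn hs i hi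
  have h3 : ω ∉ F X i := fun h => hX (mem_iUnion₂.2 ⟨i, hi, h⟩)
  obtain ⟨m, hm, h4⟩ := not_mem_RB (mem_univ ω) h3
  refine ⟨m, hm, ?_⟩
  rcases h4 with h4 | h4
  · exact h4
  · obtain ⟨n, hn1, _, hn3⟩ := h4
    exact absurd hn3 (hn₀ n (by have := hs i hi; omega))

/-- **long windows are not empty** -/
theorem nonempty (hA : ∀ n, MeasurableSet[ℱ n] (A n)) (ρ : ℕ → ℝ) (hρ0 : ∀ n, 0 ≤ ρ n)
    (hρ1 : ∀ n, 2 * ρ n ≤ 1)
    (hd : ∀ᵐ ω ∂μ, ∀ ε : ℝ, 0 < ε → ∀ᶠ n : ℕ in atTop, |dens μ ℱ A n ω - ρ (n + 1)| ≤ ε * ρ (n + 1))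
    (K : ℕ → ℕ) (hK : ∀ᶠ t : ℕ in atTop, 4 * Real.log t ≤ ∑ m ∈ Finset.Ioc t (t + K t), ρ m) :
    ∀ᵐ ω ∂μ, ∀ᶠ t : ℕ in atTop, ∃ m, t < m ∧ m ≤ t + K t ∧ ω ∈ A m := by
  classical
  set V := VP μ ℱ A ρ (1 / 2) with hV
  have hVm : ∀ n, MeasurableSet[ℱ n] (V n) := fun n => VP_meas ρ _ n
  set F : ℕ → Set Ω := fun t => PE A ∅ t (K t) \ WV V t (K t) with hF
  have hbound : ∀ᶠ t : ℕ in atTop, μ.real (F t) ≤ 1 / (t : ℝ) ^ 2 := by
    filter_upwards [hK, eventually_ge_atTop 1] with t ht ht1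
    have h1 := none_le (μ := μ) hA hVm (l := fun r => (1 - 1 / 2) * ρ r)
      (fun r => by have := hρ1 r; have := hρ0 r; linarith) (K t) t (fun n _ _ ω hω => by
        simp only [hV, VP, mem_ofPred_eq, not_not] at hω
        exact hω.1) univ (@MeasurableSet.univ _ (ℱ t))
    rw [univ_inter, probReal_univ, mul_one] at h1
    refine h1.trans ?_
    have h2 : ∏ m ∈ Finset.Ioc t (t + K t), (1 - (1 - 1 / 2) * ρ m) ≤
        ∏ m ∈ Finset.Ioc t (t + K t), Real.exp (-((1 / 2) * ρ m)) := by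
      refine Finset.prod_le_prod (fun m _ => by have := hρ1 m; linarith [hρ0 m]) fun m _ => ?_
      have := Real.add_one_le_exp (-((1 / 2) * ρ m))
      linarith
    refine h2.trans ?_
    rw [← Real.exp_sum, Finset.sum_neg_distrib, ← Finset.mul_sum]
    have ht0 : (0 : ℝ) < t := by exact_mod_cast ht1
    have h3 : 1 / (t : ℝ) ^ 2 = Real.exp (-(2 * Real.log t)) := by
      rw [Real.exp_neg, ← Real.log_rpow ht0, Real.exp_log (by positivity)]
      norm_num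
    rw [h3]
    apply Real.exp_le_exp.2
    linarith
  have hfin : ∑' t : ℕ, μ (F t) ≠ ∞ := by
    have h1 : Summable (fun X : ℕ => 1 / (X : ℝ) ^ 2) := by
      simpa using (Real.summable_one_div_nat_pow (p := 2)).2 (by norm_num)
    have h2 : Summable (fun X : ℕ => μ.real (F X)) := by
      refine Summable.of_norm_bounded_eventually_nat h1 ?_
      filter_upwards [hbound] with X hX
      rw [Real.norm_of_nonneg measureReal_nonneg]
      exact hX
    have h3 : ∑' X : ℕ, μ (F X) = ENNReal.ofReal (∑' X : ℕ, μ.real (F X)) := by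
      rw [ENNReal.ofReal_tsum_of_nonneg (fun _ => measureReal_nonneg) h2]
      congr 1
      funext i
      exact (ofReal_measureReal (measure_ne_top _ _)).symm
    rw [h3]
    exact ENNReal.ofReal_ne_top
  filter_upwards [ae_eventually_notMem hfin, hd] with ω h1 h2
  obtain ⟨n₀, hn₀⟩ := no_VP h2 (show (0 : ℝ) < 1 / 2 by norm_num)
  filter_upwards [h1, eventually_ge_atTop n₀] with t ht htn
  by_contra hcon
  push Not at hcon
  apply ht
  refine ⟨fun m h3 h4 => ⟨fun h5 => absurd h5 (hcon m h3 h4), fun h5 => absurd h5 (Set.notMem_empty m)⟩, ?_⟩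
  rintro ⟨n, hn1, _, hn3⟩
  exact hn₀ n (by omega) hn3

end Pool.Agent.U310.Pat
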