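import Mathlib
import Pool.Agent.U310.Pat.Core
import Pool.Agent.U310.Mers.Law
import Pool.Agent.H305R2.MertensE

set_option autoImplicit false
set_option linter.unusedSectionVars false

/-! # The truncated profile (helper310) -/

open MeasureTheory Filter Set
open scoped ENNReal Topology

namespace Pool.Agent.U310.Pat

open Pool.Agent.R528.RM
open Pool.Agent.U310.Mers (Rough W W_ge rho1)

lemma tlog : Tendsto (fun n : ℕ => Real.log (n : ℝ)) atTop atTop :=
  Real.tendsto_log_atTop.comp tendsto_natCast_atTop_atTop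

lemma W_mono {x y : ℕ} (h : x ≤ y) : W x ≤ W y := by
  classical
  unfold W
  have hsub : (Finset.Icc 1 x).filter Nat.Prime ⊆ (Finset.Icc 1 y).filter Nat.Prime := by
    intro q hq
    rw [Finset.mem_filter, Finset.mem_Icc] at hq ⊢
    exact ⟨⟨hq.1.1, hq.1.2.trans h⟩, hq.2⟩
  have h1 : ∀ q : ℕ, q.Prime → 1 ≤ (1 - (q : ℝ)⁻¹)⁻¹ := by
    intro q hq
    have hq2 : (1 : ℝ) < q := by exact_mod_cast hq.one_lt
    have h1 : (q : ℝ)⁻¹ < 1 := inv_lt_one_of_one_lt₀ hq2
    have h2 : 0 < (q : ℝ)⁻¹ := by positivity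
    rw [one_le_inv₀ (by linarith)]
    linarith
  rw [← Finset.prod_sdiff hsub]
  refine le_mul_of_one_le_left ?_ ?_
  · exact Finset.prod_nonneg fun q hq => zero_le_one.trans (h1 q (Finset.mem_filter.1 hq).2)
  · calc (1 : ℝ) = ∏ q ∈ (Finset.Icc 1 y).filter Nat.Prime \ (Finset.Icc 1 x).filter Nat.Prime, (1 : ℝ) := by simp
      _ ≤ _ := Finset.prod_le_prod (fun _ _ => zero_le_one) fun q hq =>
        h1 q (Finset.mem_filter.1 (Finset.mem_sdiff.1 hq).1).2

theorem W_bound : ∃ C : ℝ, 0 < C ∧ ∀ t : ℕ, W t ≤ C + C * Real.log t := by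
  have h : Tendsto (fun N : ℕ => W N / Real.log N) atTop
      (𝓝 (Real.exp Real.eulerMascheroniConstant)) := Pool.Agent.H305R2.mertens_three
  have h1 : ∀ᶠ N : ℕ in atTop, W N / Real.log N < Real.exp Real.eulerMascheroniConstant + 1 :=
    h.eventually (gt_mem_nhds (by linarith))
  obtain ⟨N0, hN0⟩ := eventually_atTop.1 (h1.and (tlog.eventually_gt_atTop 0))
  have hW0 : 0 < W N0 := lt_of_lt_of_le one_pos (W_ge _)
  have he := Real.exp_pos Real.eulerMascheroniConstant
  refine ⟨W N0 + (Real.exp Real.eulerMascheroniConstant + 1), by linarith, ?_⟩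
  intro x
  have hx0 : 0 ≤ Real.log (x : ℝ) := Real.log_natCast_nonneg x
  have k1 : 0 ≤ W N0 * Real.log x := mul_nonneg hW0.le hx0
  have k2 : 0 ≤ (Real.exp Real.eulerMascheroniConstant + 1) * Real.log x := by positivity
  rcases le_total x N0 with h2 | h2
  · have := W_mono h2
    nlinarith
  · obtain ⟨g1, g2⟩ := hN0 x h2
    rw [div_lt_iff₀ g2] at g1
    nlinarith

/-- the weights are small compared with the logarithm -/
theorem W_small (z : ℕ → ℕ) (hz : ∀ᶠ m : ℕ in atTop, (z m : ℝ) ≤ Real.log m) (η : ℝ) (hη : 0 < η) :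
    ∀ᶠ n : ℕ in atTop, W (z n) / Real.log n < η := by
  obtain ⟨C, hC, hW⟩ := W_bound
  have h1 : Tendsto (fun n : ℕ => (C + C * Real.log (Real.log n)) / Real.log n) atTop (𝓝 0) := by
    have h2 : Tendsto (fun x : ℝ => Real.log x / x) atTop (𝓝 0) :=
      Real.isLittleO_log_id_atTop.tendsto_div_nhds_zero
    have h3 := (h2.comp tlog).const_mul C
    have h4 : Tendsto (fun n : ℕ => C / Real.log n) atTop (𝓝 0) := tlog.const_div_atTop C
    have h5 := h4.add h3
    rw [mul_zero, add_zero] at h5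
    refine h5.congr fun n => ?_
    simp only [Function.comp]
    rw [add_div, mul_div_assoc]
  filter_upwards [h1.eventually (gt_mem_nhds hη), hz, tlog.eventually_gt_atTop 1] with n h2 h3 h4
  refine lt_of_le_of_lt ?_ h2
  apply div_le_div_of_nonneg_right _ (by linarith)
  refine (hW (z n)).trans ?_
  have h5 : Real.log (z n) ≤ Real.log (Real.log n) := by
    rcases Nat.eq_zero_or_pos (z n) with h6 | h6
    · rw [h6, Nat.cast_zero, Real.log_zero]
      exact (Real.log_pos h4).le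
    · exact Real.log_le_log (by exact_mod_cast h6) h3
  nlinarith

open Classical in
/-- the density, at most one half -/
noncomputable def rho2 (z : ℕ → ℕ) (m : ℕ) : ℝ := if Rough z m then min (1 / 2) (W (z m) / Real.log m) else 0

lemma rho2_nonneg (z : ℕ → ℕ) (n : ℕ) : 0 ≤ rho2 z n := by
  unfold rho2
  have h1 : 0 ≤ W (z n) := zero_le_one.trans (W_ge _)
  have h2 := Real.log_natCast_nonneg n
  split_ifs
  · positivity
  · exact le_rfl

lemma rho2_le (z : ℕ → ℕ) (n : ℕ) : 2 * rho2 z n ≤ 1 := by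
  unfold rho2
  split_ifs
  · have := min_le_left (1 / 2 : ℝ) (W (z n) / Real.log n)
    linarith
  · norm_num

lemma rho2_le' (z : ℕ → ℕ) (n : ℕ) : rho2 z n ≤ W (z n) / Real.log n := by
  unfold rho2
  have h1 : 0 ≤ W (z n) := zero_le_one.trans (W_ge _)
  have h2 := Real.log_natCast_nonneg n
  split_ifs
  · exact min_le_right _ _
  · positivity

section
variable {Ω : Type} {m0 : MeasurableSpace Ω} {μ : Measure Ω} [IsProbabilityMeasure μ]
  {ℱ : Filtration ℕ m0} {A : ℕ → Set Ω}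

/-- the densities follow the truncated profile -/
theorem profile2 (z : ℕ → ℕ) (hz : ∀ᶠ m : ℕ in atTop, (z m : ℝ) ≤ Real.log m)
    (hcop : ∀ n, ¬ Rough z n → A n = ∅)
    (hd : ∀ᵐ ω ∂μ, Tendsto (fun n : ℕ => dens μ ℱ A n ω * Real.log n / W (z (n + 1)))
      (atTop ⊓ 𝓟 {n : ℕ | Rough z (n + 1)}) (𝓝 1)) :
    ∀ᵐ ω ∂μ, ∀ ε : ℝ, 0 < ε → ∀ᶠ n : ℕ in atTop,
      |dens μ ℱ A n ω - rho2 z (n + 1)| ≤ ε * rho2 z (n + 1) := by
  have h1 := Pool.Agent.U310.Mers.profile (μ := μ) (ℱ := ℱ) z (W_small z hz 1 one_pos) hcop hd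
  have h2 : ∀ᶠ n : ℕ in atTop, rho1 z (n + 1) = rho2 z (n + 1) := by
    filter_upwards [(tendsto_add_atTop_nat 1).eventually (W_small z hz (1 / 2) (by norm_num))] with n hn
    unfold rho1 rho2
    rw [min_eq_right (by linarith), min_eq_right hn.le]
  filter_upwards [h1] with ω hω ε hε
  filter_upwards [hω ε hε, h2] with n h3 h4
  rwa [h4] at h3

end

end Pool.Agent.U310.Pat
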