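import Mathlib
import Pool.Agent.U310.Pat.Prof
import Pool.Agent.U310.Pat.Adm

set_option autoImplicit false
set_option linter.unusedSectionVars false

/-! # All admissible patterns occur (helper310) -/

open MeasureTheory Filter Set
open scoped ENNReal Topology

namespace Pool.Agent.U310.Pat

open Pool.Agent.R528.RM
open Pool.Agent.U310.Mers (Rough W W_ge)

/-- the primorial is small -/
lemma primorial_small (z : ℕ → ℕ) (hz : ∀ᶠ m : ℕ in atTop, 4 * (z m : ℝ) ≤ Real.log m) :
    ∀ᶠ X : ℕ in atTop, Real.log (primorial (z (3 * X))) ≤ 7 / 20 * Real.log ((3 * X : ℕ) : ℝ) := by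
  have h3 : Tendsto (fun X : ℕ => 3 * X) atTop atTop := tendsto_id.const_mul_atTop' (by norm_num)
  filter_upwards [h3.eventually hz] with X hX
  have h1 : (primorial (z (3 * X)) : ℝ) ≤ (4 : ℝ) ^ (z (3 * X)) := by
    exact_mod_cast primorial_le_four_pow (z (3 * X))
  have h0 : (0 : ℝ) < primorial (z (3 * X)) := by exact_mod_cast primorial_pos _
  have h2 := Real.log_le_log h0 h1
  rw [Real.log_pow] at h2
  have h4 : Real.log 4 ≤ 7 / 5 := by
    have : Real.log 4 = 2 * Real.log 2 := by
      rw [← Real.log_rpow (by norm_num)]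
      norm_num
    rw [this]
    linarith [Real.log_two_lt_d9]
  have h5 : (0 : ℝ) ≤ z (3 * X) := Nat.cast_nonneg _
  nlinarith

section
variable {Ω : Type} {m0 : MeasurableSpace Ω} {μ : Measure Ω} [IsProbabilityMeasure μ]
  {ℱ : Filtration ℕ m0} {A : ℕ → Set Ω}

/-- **all admissible patterns of length at most `log X / (16 log log X)` occur in `(X, 2 X]`** -/
theorem univ_patterns (hA : ∀ n, MeasurableSet[ℱ n] (A n)) (z : ℕ → ℕ) (hmono : Monotone z)
    (hz : ∀ᶠ m : ℕ in atTop, 4 * (z m : ℝ) ≤ Real.log m)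
    (hd : ∀ᵐ ω ∂μ, ∀ ε : ℝ, 0 < ε → ∀ᶠ n : ℕ in atTop,
      |dens μ ℱ A n ω - rho2 z (n + 1)| ≤ ε * rho2 z (n + 1)) :
    ∀ᵐ ω ∂μ, ∀ᶠ X : ℕ in atTop, ∀ k : ℕ, (k : ℝ) * Real.log (Real.log X) ≤ Real.log X / 16 →
      ∀ H : Finset ℕ, (∀ h ∈ H, 1 ≤ h ∧ h ≤ k) → AdmL (z (3 * X)) (H : Set ℕ) →
        ∃ x, X < x ∧ x + k ≤ 2 * X ∧ ∀ i, 1 ≤ i → i ≤ k → (ω ∈ A (x + i) ↔ i ∈ H) := by
  classical
  -- the starting points
  have hst : ∀ (X : ℕ) (H : Finset ℕ), ∃ a, a < primorial (z (3 * X)) ∧ (AdmL (z (3 * X)) (H : Set ℕ) →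
      ∀ p : ℕ, p.Prime → p ≤ z (3 * X) → ∀ n, ∀ h ∈ H, ¬ p ∣ a + primorial (z (3 * X)) * n + h) := by
    intro X H
    by_cases hH : AdmL (z (3 * X)) (H : Set ℕ)
    · obtain ⟨a, ha, h1⟩ := exists_starts hH
      exact ⟨a, ha, fun _ => h1⟩
    · exact ⟨0, primorial_pos _, fun h => absurd h hH⟩
  choose a ha1 ha2 using hst
  obtain ⟨P, hP⟩ : ∃ P : ℕ → ℕ, P = fun X => primorial (z (3 * X)) := ⟨_, rfl⟩
  have hPpos : ∀ X, 0 < P X := fun X => by rw [hP]; exact primorial_pos _
  obtain ⟨I, hI⟩ : ∃ I : ℕ → Finset (ℕ × Finset ℕ), I = fun X : ℕ =>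
    ((Finset.range (⌊Real.log X⌋₊ + 1)) ×ˢ (Finset.Icc 1 ⌊Real.log X⌋₊).powerset).filter (fun i =>
      (i.1 : ℝ) * Real.log (Real.log X) ≤ Real.log X / 16 ∧ (∀ h ∈ i.2, 1 ≤ h ∧ h ≤ i.1) ∧ AdmL (z (3 * X)) (i.2 : Set ℕ)) :=
    ⟨_, rfl⟩
  obtain ⟨s, hs⟩ : ∃ s : ℕ → (ℕ × Finset ℕ) → ℕ, s = fun X i => P X * (X / P X + 1) + a X i.2 := ⟨_, rfl⟩
  obtain ⟨Q, hQ⟩ : ∃ Q : ℕ → (ℕ × Finset ℕ) → ℕ, Q = fun X i => P X * (i.1 + 1) := ⟨_, rfl⟩
  obtain ⟨M, hM⟩ : ∃ M : ℕ → (ℕ × Finset ℕ) → ℕ, M = fun X i => X / (4 * Q X i) := ⟨_, rfl⟩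
  obtain ⟨p, hp⟩ : ∃ p : ℕ → (ℕ × Finset ℕ) → ℝ, p = fun X i =>
    (1 / (2 * Real.log ((3 * X : ℕ) : ℝ))) ^ i.1 := ⟨_, rfl⟩
  have hQpos : ∀ X i, 0 < Q X i := fun X i => by rw [hQ]; exact Nat.mul_pos (hPpos X) (Nat.succ_pos _)
  -- basic bounds
  have hs1 : ∀ X i, X < s X i := by
    intro X i
    rw [hs]
    have := Nat.lt_mul_div_succ X (hPpos X)
    simp only
    omega
  have hs2 : ∀ X i, s X i ≤ X + 2 * P X := by
    intro X i
    have h1 : P X * (X / P X + 1) ≤ X + P X := by
      rw [mul_add, mul_one]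
      have := Nat.mul_div_le X (P X)
      omega
    have h2 := ha1 X i.2
    rw [hs]
    rw [hP] at h1 ⊢
    simp only at h1 h2 ⊢
    omega
  -- eventual bounds
  have hl3 : ∀ᶠ X : ℕ in atTop, Real.log ((3 * X : ℕ) : ℝ) ≤ Real.log X + 2 := by
    filter_upwards [eventually_ge_atTop 1] with X hX
    have hX0 : (0 : ℝ) < X := by exact_mod_cast hX
    push_cast
    rw [Real.log_mul (by norm_num) hX0.ne']
    have : Real.log 3 ≤ 2 := by
      have h4 : Real.log 3 ≤ Real.log 4 := Real.log_le_log (by norm_num) (by norm_num)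
      have h5 : Real.log 4 = 2 * Real.log 2 := by
        rw [← Real.log_rpow (by norm_num)]
        norm_num
      have := Real.log_two_lt_d9
      linarith
    linarith
  have hll : ∀ᶠ X : ℕ in atTop, Real.log (2 * Real.log ((3 * X : ℕ) : ℝ)) ≤ 2 * Real.log (Real.log X) := by
    filter_upwards [hl3, tlog.eventually_ge_atTop 6, eventually_ge_atTop 1] with X h1 h2 h3
    have h4 : 2 * Real.log ((3 * X : ℕ) : ℝ) ≤ Real.log X ^ 2 := by nlinarith
    have h5 : Real.log (X : ℝ) ≤ Real.log ((3 * X : ℕ) : ℝ) := by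
      apply Real.log_le_log (by exact_mod_cast h3)
      push_cast
      have : (0 : ℝ) ≤ X := Nat.cast_nonneg X
      linarith
    calc Real.log (2 * Real.log ((3 * X : ℕ) : ℝ)) ≤ Real.log (Real.log X ^ 2) :=
          Real.log_le_log (by linarith) h4
      _ = _ := by rw [Real.log_pow]; norm_num
  have hk1 : ∀ᶠ X : ℕ in atTop, ∀ k : ℕ, (k : ℝ) * Real.log (Real.log X) ≤ Real.log X / 16 →
      (k : ℝ) ≤ Real.log X := by
    have h0 : Tendsto (fun X : ℕ => Real.log (Real.log (X : ℝ))) atTop atTop :=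
      Real.tendsto_log_atTop.comp tlog
    filter_upwards [h0.eventually_ge_atTop 1, tlog.eventually_ge_atTop 1] with X h1 h2 k hk
    have h3 : (0 : ℝ) ≤ k := Nat.cast_nonneg k
    nlinarith
  have hMp : ∀ᶠ X : ℕ in atTop, ∀ i ∈ I X, Real.exp (Real.log X / 4) ≤ M X i * p X i ∧
      s X i + Q X i * M X i + i.1 ≤ 2 * X := by
    have hexp : ∀ᶠ x : ℝ in atTop, Real.log (x + 1) + 10 ≤ x / 4 := by
      have h1 : Tendsto (fun x : ℝ => Real.log (x + 1) / (x + 1)) atTop (𝓝 0) :=
        (Real.isLittleO_log_id_atTop.tendsto_div_nhds_zero).comp (tendsto_atTop_add_const_right _ 1 tendsto_id)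
      filter_upwards [h1.eventually (gt_mem_nhds (show (0 : ℝ) < 1 / 16 by norm_num)),
        eventually_ge_atTop 100] with x h2 h3
      rw [div_lt_iff₀ (by linarith)] at h2
      linarith
    filter_upwards [primorial_small z hz, hl3, hll, hk1, tlog.eventually_ge_atTop 100,
      tlog.eventually hexp, eventually_ge_atTop 1] with X h1 h2 h3 h4 h5 h6 h7 i hi
    have hX0 : (0 : ℝ) < X := by exact_mod_cast h7
    rw [hI] at hi
    simp only [Finset.mem_filter] at hi
    obtain ⟨-, hi1, -, -⟩ := hi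
    have hk := h4 i.1 hi1
    have hP0 : (0 : ℝ) < P X := by exact_mod_cast hPpos X
    have hPl : Real.log (P X) ≤ 7 / 20 * (Real.log X + 2) := by
      rw [hP]
      refine h1.trans ?_
      linarith
    have hQ0 : (0 : ℝ) < Q X i := by exact_mod_cast hQpos X i
    have hk0 : (0 : ℝ) ≤ (i.1 : ℝ) := Nat.cast_nonneg _
    have hQl : Real.log (Q X i) ≤ 7 / 20 * (Real.log X + 2) + Real.log (Real.log X + 1) := by
      rw [hQ]
      push_cast
      rw [Real.log_mul hP0.ne' (by positivity)]
      have : Real.log ((i.1 : ℝ) + 1) ≤ Real.log (Real.log X + 1) :=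
        Real.log_le_log (by positivity) (by linarith)
      linarith
    have hQX : Real.log (8 * Q X i) ≤ Real.log X := by
      rw [Real.log_mul (by norm_num) hQ0.ne']
      have : Real.log 8 ≤ 3 := by
        have : Real.log 8 = 3 * Real.log 2 := by
          rw [← Real.log_rpow (by norm_num)]
          norm_num
        rw [this]
        linarith [Real.log_two_lt_d9]
      linarith
    have hQX' : 8 * (Q X i : ℝ) ≤ X := (Real.log_le_log_iff (by positivity) hX0).1 hQX
    have hQXn : 8 * Q X i ≤ X := by exact_mod_cast hQX'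
    constructor
    · have hMl : (X : ℝ) / (8 * Q X i) ≤ M X i := by
        have h8 : (X : ℝ) / (4 * Q X i) - 1 ≤ M X i := by
          have h9 := Nat.lt_floor_add_one ((X : ℝ) / ((4 * Q X i : ℕ) : ℝ))
          rw [Nat.floor_div_natCast, Nat.floor_natCast] at h9
          push_cast at h9
          rw [hM]
          linarith
        have h9 : (X : ℝ) / (4 * Q X i) = 2 * (X / (8 * Q X i)) := by
          field_simp
          ring
        have h10 : 1 ≤ (X : ℝ) / (8 * Q X i) := by
          rw [le_div_iff₀ (by positivity), one_mul]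
          exact hQX'
        linarith
      have hpl : Real.exp (-(Real.log X / 8)) ≤ p X i := by
        have hpos : 0 < 2 * Real.log ((3 * X : ℕ) : ℝ) := by
          have : Real.log (X : ℝ) ≤ Real.log ((3 * X : ℕ) : ℝ) := by
            apply Real.log_le_log hX0
            push_cast
            linarith
          linarith
        rw [hp]
        simp only
        rw [one_div, inv_pow, ← Real.exp_log (pow_pos hpos i.1), ← Real.exp_neg, Real.log_pow]
        apply Real.exp_le_exp.2
        have : (i.1 : ℝ) * Real.log (2 * Real.log ((3 * X : ℕ) : ℝ)) ≤ i.1 * (2 * Real.log (Real.log X)) :=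
          mul_le_mul_of_nonneg_left h3 hk0
        linarith
      have hMe : Real.exp (Real.log X - 3 - (7 / 20 * (Real.log X + 2) + Real.log (Real.log X + 1))) ≤ M X i := by
        refine le_trans ?_ hMl
        have h8 : (X : ℝ) / (8 * Q X i) = Real.exp (Real.log X - Real.log (8 * Q X i)) := by
          rw [Real.exp_sub, Real.exp_log hX0, Real.exp_log (by positivity)]
        rw [h8]
        apply Real.exp_le_exp.2
        rw [Real.log_mul (by norm_num) hQ0.ne']
        have : Real.log 8 ≤ 3 := by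
          have : Real.log 8 = 3 * Real.log 2 := by
            rw [← Real.log_rpow (by norm_num)]
            norm_num
          rw [this]
          linarith [Real.log_two_lt_d9]
        linarith
      calc Real.exp (Real.log X / 4) ≤
          Real.exp (Real.log X - 3 - (7 / 20 * (Real.log X + 2) + Real.log (Real.log X + 1))) *
            Real.exp (-(Real.log X / 8)) := by
            rw [← Real.exp_add]
            apply Real.exp_le_exp.2
            linarith
        _ ≤ _ := mul_le_mul hMe hpl (Real.exp_pos _).le (Nat.cast_nonneg _)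
    · have h8 := hs2 X i
      have h9 : Q X i * M X i ≤ X / 4 := by
        rw [hM]
        simp only
        have h10 : X / (4 * Q X i) = X / 4 / Q X i := by rw [Nat.div_div_eq_div_mul]
        rw [h10]
        exact Nat.mul_div_le _ _
      have h10 : P X ≤ Q X i := by
        rw [hQ]
        exact Nat.le_mul_of_pos_right _ (Nat.succ_pos _)
      have h11 : i.1 + 1 ≤ Q X i := by
        rw [hQ]
        exact Nat.le_mul_of_pos_left _ (hPpos X)
      omega
  have hcard : ∀ᶠ X : ℕ in atTop, ((I X).card : ℝ) ≤ Real.exp (2 * Real.log X) := by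
    filter_upwards [tlog.eventually_ge_atTop 1, eventually_ge_atTop 1] with X h1 h2
    have hX0 : (0 : ℝ) < X := by exact_mod_cast h2
    have h3 : (I X).card ≤ (⌊Real.log X⌋₊ + 1) * 2 ^ ⌊Real.log X⌋₊ := by
      rw [hI]
      refine (Finset.card_filter_le _ _).trans ?_
      rw [Finset.card_product, Finset.card_range, Finset.card_powerset, Nat.card_Icc, Nat.add_sub_cancel]
    have h4 : ((I X).card : ℝ) ≤ (⌊Real.log X⌋₊ + 1) * 2 ^ ⌊Real.log X⌋₊ := by exact_mod_cast h3
    refine h4.trans ?_
    have h5 : (⌊Real.log (X : ℝ)⌋₊ : ℝ) ≤ Real.log X := Nat.floor_le (by linarith)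
    have h6 : (⌊Real.log (X : ℝ)⌋₊ : ℝ) + 1 ≤ Real.exp (Real.log X) := by
      have := Real.add_one_le_exp (Real.log X)
      linarith
    have h7 : (2 : ℝ) ^ ⌊Real.log (X : ℝ)⌋₊ ≤ Real.exp (Real.log X) := by
      have h8 : (2 : ℝ) ≤ Real.exp 1 := by
        have := Real.add_one_le_exp (1 : ℝ)
        linarith
      calc (2 : ℝ) ^ ⌊Real.log (X : ℝ)⌋₊ ≤ Real.exp 1 ^ ⌊Real.log (X : ℝ)⌋₊ := pow_le_pow_left₀ (by norm_num) h8 _
        _ = Real.exp ⌊Real.log (X : ℝ)⌋₊ := by rw [← Real.exp_nat_mul, mul_one]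
        _ ≤ _ := Real.exp_le_exp.2 h5
    calc _ ≤ Real.exp (Real.log X) * Real.exp (Real.log X) := mul_le_mul h6 h7 (by positivity) (Real.exp_pos _).le
      _ = _ := by rw [← Real.exp_add]; ring_nf
  have hmain := patterns (μ := μ) (ℱ := ℱ) hA (rho2 z) (rho2_nonneg z) (rho2_le z) hd I s Q (fun _ i => i.1) M
    (fun X i m => {r | ∃ h ∈ i.2, r = s X i + Q X i * m + h}) p
    (Eventually.of_forall fun X i _ => (hs1 X i).le)
    (Eventually.of_forall fun X i _ => by
      rw [hQ]
      have := Nat.le_mul_of_pos_left (i.1 + 1) (hPpos X)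
      simp only
      omega)
    (by
      filter_upwards [hMp, tlog.eventually_ge_atTop 2, hl3, eventually_ge_atTop 2] with X h1 h2 h2' h3 i hi m hm
      obtain ⟨-, h4⟩ := h1 i hi
      rw [hI] at hi
      simp only [Finset.mem_filter] at hi
      obtain ⟨-, -, hi2, hi3⟩ := hi
      have hlog : Real.log (X : ℝ) ≤ Real.log ((3 * X : ℕ) : ℝ) := by
        apply Real.log_le_log (by exact_mod_cast (by omega : 0 < X))
        push_cast
        have : (0 : ℝ) ≤ X := Nat.cast_nonneg X
        linarith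
      have hmM : Q X i * m + Q X i ≤ Q X i * M X i := by
        have : m + 1 ≤ M X i := hm
        calc Q X i * m + Q X i = Q X i * (m + 1) := by ring
          _ ≤ _ := Nat.mul_le_mul_left _ this
      have hb : ∀ r ∈ Finset.Ioc (s X i + Q X i * m) (s X i + Q X i * m + i.1),
          1 / (2 * Real.log ((3 * X : ℕ) : ℝ)) ≤ fac (fun r => (1 - 1 / 2) * rho2 z r)
            (fun r => (1 + 1 / 2) * rho2 z r) {r | ∃ h ∈ i.2, r = s X i + Q X i * m + h} r := by
        intro r hr
        rw [Finset.mem_Ioc] at hr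
        unfold fac
        split_ifs with hT
        · obtain ⟨h, hh, hrh⟩ := hT
          have hr2 : r ≤ 2 * X := by omega
          have hrX : X < r := by have := hs1 X i; omega
          have hrough : Rough z r := by
            intro q hq hqz
            have hqz' : q ≤ z (3 * X) := hqz.trans (hmono (by omega))
            have h5 := ha2 X i.2 hi3 q hq hqz' (X / P X + 1 + (i.1 + 1) * m) h hh
            have h6 : r = a X i.2 + primorial (z (3 * X)) * (X / P X + 1 + (i.1 + 1) * m) + h := by
              rw [hrh, hs, hQ, hP]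
              simp only
              ring
            rw [h6]
            exact h5
          have h7 : 1 / Real.log ((3 * X : ℕ) : ℝ) ≤ rho2 z r := by
            unfold rho2
            rw [if_pos hrough]
            have hr1 : 0 < Real.log (r : ℝ) := Real.log_pos (by exact_mod_cast (by omega : 1 < r))
            have hr3 : Real.log (r : ℝ) ≤ Real.log ((3 * X : ℕ) : ℝ) := by
              apply Real.log_le_log (by exact_mod_cast (by omega : 0 < r))
              exact_mod_cast (by omega : r ≤ 3 * X)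
            refine le_min ?_ ?_
            · rw [div_le_div_iff₀ (by linarith) (by norm_num)]
              linarith
            · rw [div_le_div_iff₀ (by linarith) hr1]
              have := W_ge (z r)
              nlinarith
          have e : 1 / (2 * Real.log ((3 * X : ℕ) : ℝ)) = (1 - 1 / 2) * (1 / Real.log ((3 * X : ℕ) : ℝ)) := by
            rw [one_div, mul_inv]
            ring
          rw [e]
          exact mul_le_mul_of_nonneg_left h7 (by norm_num)
        · have h5 := rho2_le z r
          have h6 : 1 / (2 * Real.log ((3 * X : ℕ) : ℝ)) ≤ 1 / 4 := by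
            rw [div_le_div_iff₀ (by linarith) (by norm_num)]
            linarith
          linarith
      rw [hp]
      simp only
      have hcardI : (Finset.Ioc (s X i + Q X i * m) (s X i + Q X i * m + i.1)).card = i.1 := by
        rw [Nat.card_Ioc]
        omega
      calc (1 / (2 * Real.log ((3 * X : ℕ) : ℝ))) ^ i.1 =
          ∏ _r ∈ Finset.Ioc (s X i + Q X i * m) (s X i + Q X i * m + i.1), 1 / (2 * Real.log ((3 * X : ℕ) : ℝ)) := by
            rw [Finset.prod_const, hcardI]
        _ ≤ _ := Finset.prod_le_prod (fun _ _ => by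
            have : 0 < Real.log ((3 * X : ℕ) : ℝ) := by linarith
            positivity) hb)
    (by
      have hexp : ∀ᶠ x : ℝ in atTop, 4 * x ≤ Real.exp (x / 4) := by
        have h1 : Tendsto (fun x : ℝ => Real.exp x / x) atTop atTop := by
          simpa using Real.tendsto_exp_div_pow_atTop 1
        have h2 : Tendsto (fun x : ℝ => x / 4) atTop atTop := tendsto_id.atTop_div_const (by norm_num)
        filter_upwards [(h1.comp h2).eventually_ge_atTop 16, eventually_gt_atTop 0] with x h3 h4
        simp only [Function.comp] at h3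
        rw [le_div_iff₀ (by positivity)] at h3
        linarith
      filter_upwards [hMp, hcard, tlog.eventually hexp, eventually_ge_atTop 1] with X h1 h2 h3 h4 i hi
      have hX0 : (0 : ℝ) < X := by exact_mod_cast h4
      obtain ⟨h5, -⟩ := h1 i hi
      calc ((I X).card : ℝ) * Real.exp (-(M X i * p X i)) ≤ Real.exp (2 * Real.log X) * Real.exp (-(4 * Real.log X)) := by
            refine mul_le_mul h2 (Real.exp_le_exp.2 ?_) (Real.exp_pos _).le (Real.exp_pos _).le
            linarith
        _ = 1 / (X : ℝ) ^ 2 := by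
            rw [← Real.exp_add]
            have : 2 * Real.log (X : ℝ) + -(4 * Real.log X) = -(2 * Real.log X) := by ring
            rw [this, Real.exp_neg, ← Real.log_rpow hX0, Real.exp_log (by positivity)]
            norm_num)
  filter_upwards [hmain] with ω hω
  filter_upwards [hω, hMp, hk1, tlog.eventually_ge_atTop 1] with X h1 h2 h3 h0 k hk H hH hadm
  have hkX := h3 k hk
  have hkf : k ≤ ⌊Real.log (X : ℝ)⌋₊ := Nat.le_floor hkX
  have hmem : (k, H) ∈ I X := by
    rw [hI]
    simp only [Finset.mem_filter, Finset.mem_product, Finset.mem_range, Finset.mem_powerset]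
    refine ⟨⟨by omega, ?_⟩, hk, hH, hadm⟩
    intro h hh
    have := hH h hh
    rw [Finset.mem_Icc]
    omega
  obtain ⟨m, hm, h4⟩ := h1 (k, H) hmem
  obtain ⟨-, h5⟩ := h2 (k, H) hmem
  have hmM : Q X (k, H) * m ≤ Q X (k, H) * M X (k, H) := Nat.mul_le_mul_left _ hm.le
  refine ⟨s X (k, H) + Q X (k, H) * m, ?_, ?_, ?_⟩
  · have := hs1 X (k, H); omega
  · simp only at h5; omega
  · intro i hi1 hi2
    have h6 := h4 (s X (k, H) + Q X (k, H) * m + i) (by omega) (by simp only; omega)
    rw [h6]
    constructor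
    · rintro ⟨h, hh, h7⟩
      have : i = h := by omega
      rw [this]
      exact hh
    · intro h
      exact ⟨i, h, rfl⟩

end

end Pool.Agent.U310.Pat
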