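import Mathlib
import Pool.Agent.U310.Pat.Univ

set_option autoImplicit false
set_option linter.unusedSectionVars false

/-! # One pattern for each scale (helper310) -/

open MeasureTheory Filter Set
open scoped ENNReal Topology

namespace Pool.Agent.U310.Pat

open Pool.Agent.R528.RM
open Pool.Agent.U310.Mers (Rough W W_ge)

lemma log_three_mul : ∀ᶠ X : ℕ in atTop, Real.log X ≤ Real.log ((3 * X : ℕ) : ℝ) ∧
    Real.log ((3 * X : ℕ) : ℝ) ≤ Real.log X + 2 := by
  filter_upwards [eventually_ge_atTop 1] with X hX
  have hX0 : (0 : ℝ) < X := by exact_mod_cast hX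
  push_cast
  rw [Real.log_mul (by norm_num) hX0.ne']
  have : Real.log 3 ≤ 2 := by
    have h4 : Real.log 3 ≤ Real.log 4 := Real.log_le_log (by norm_num) (by norm_num)
    have h5 : Real.log 4 = 2 * Real.log 2 := by
      rw [← Real.log_rpow (by norm_num)]
      norm_num
    have := Real.log_two_lt_d9
    linarith
  have : 0 ≤ Real.log 3 := Real.log_nonneg (by norm_num)
  constructor <;> linarith

lemma log_eight : Real.log 8 ≤ 3 := by
  have : Real.log 8 = 3 * Real.log 2 := by
    rw [← Real.log_rpow (by norm_num)]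
    norm_num
  rw [this]
  linarith [Real.log_two_lt_d9]

lemma one_sub_ge_exp {x : ℝ} (h0 : 0 ≤ x) (h1 : x ≤ 1 / 2) : Real.exp (-(2 * x)) ≤ 1 - x := by
  rw [Real.exp_neg, inv_le_comm₀ (Real.exp_pos _) (by linarith)]
  have h2 := Real.add_one_le_exp (2 * x)
  refine le_trans ?_ h2
  rw [inv_le_iff_one_le_mul₀ (by linarith)]
  nlinarith

section
variable {Ω : Type} {m0 : MeasurableSpace Ω} {μ : Measure Ω} [IsProbabilityMeasure μ]
  {ℱ : Filtration ℕ m0} {A : ℕ → Set Ω}

/-- **a pattern of moderate cost occurs in `(X, 2 X]`** -/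
theorem one_pattern (hA : ∀ n, MeasurableSet[ℱ n] (A n)) (z : ℕ → ℕ) (hmono : Monotone z)
    (hz : ∀ᶠ m : ℕ in atTop, 4 * (z m : ℝ) ≤ Real.log m)
    (hd : ∀ᵐ ω ∂μ, ∀ ε : ℝ, 0 < ε → ∀ᶠ n : ℕ in atTop,
      |dens μ ℱ A n ω - rho2 z (n + 1)| ≤ ε * rho2 z (n + 1))
    (J : ℕ → ℕ) (H : ℕ → Finset ℕ)
    (hH : ∀ᶠ X : ℕ in atTop, (∀ h ∈ H X, 1 ≤ h ∧ h ≤ J X) ∧ AdmL (z (3 * X)) (H X : Set ℕ))
    (hc1 : ∀ᶠ X : ℕ in atTop, ((H X).card : ℝ) * (2 * Real.log (Real.log X)) ≤ Real.log X / 16)
    (hc2 : ∀ᶠ X : ℕ in atTop, 3 * (J X : ℝ) * W (z (3 * X)) ≤ Real.log X ^ 2 / 16)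
    (hJ : ∀ᶠ X : ℕ in atTop, Real.log ((J X : ℝ) + 1) ≤ Real.log X / 8) :
    ∀ᵐ ω ∂μ, ∀ᶠ X : ℕ in atTop, ∃ x, X < x ∧ x + J X ≤ 2 * X ∧
      ∀ i, 1 ≤ i → i ≤ J X → (ω ∈ A (x + i) ↔ i ∈ H X) := by
  classical
  have hst : ∀ X : ℕ, ∃ a, a < primorial (z (3 * X)) ∧ (AdmL (z (3 * X)) (H X : Set ℕ) →
      ∀ p : ℕ, p.Prime → p ≤ z (3 * X) → ∀ n, ∀ h ∈ H X, ¬ p ∣ a + primorial (z (3 * X)) * n + h) := by
    intro X
    by_cases hH : AdmL (z (3 * X)) (H X : Set ℕ)
    · obtain ⟨a, ha, h1⟩ := exists_starts hH
      exact ⟨a, ha, fun _ => h1⟩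
    · exact ⟨0, primorial_pos _, fun h => absurd h hH⟩
  choose a ha1 ha2 using hst
  obtain ⟨P, hP⟩ : ∃ P : ℕ → ℕ, P = fun X => primorial (z (3 * X)) := ⟨_, rfl⟩
  have hPpos : ∀ X, 0 < P X := fun X => by rw [hP]; exact primorial_pos _
  obtain ⟨s, hs⟩ : ∃ s : ℕ → ℕ, s = fun X => P X * (X / P X + 1) + a X := ⟨_, rfl⟩
  obtain ⟨Q, hQ⟩ : ∃ Q : ℕ → ℕ, Q = fun X => P X * (J X + 1) := ⟨_, rfl⟩
  obtain ⟨M, hM⟩ : ∃ M : ℕ → ℕ, M = fun X => X / (4 * Q X) := ⟨_, rfl⟩
  obtain ⟨b, hb⟩ : ∃ b : ℕ → ℝ, b = fun X => 3 * W (z (3 * X)) / Real.log X := ⟨_, rfl⟩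
  obtain ⟨c, hc⟩ : ∃ c : ℕ → ℝ, c = fun X => 1 / (2 * Real.log ((3 * X : ℕ) : ℝ)) := ⟨_, rfl⟩
  obtain ⟨p, hp⟩ : ∃ p : ℕ → ℝ, p = fun X => c X ^ (H X).card * Real.exp (-b X) ^ (J X) := ⟨_, rfl⟩
  have hQpos : ∀ X, 0 < Q X := fun X => by rw [hQ]; exact Nat.mul_pos (hPpos X) (Nat.succ_pos _)
  have hs1 : ∀ X, X < s X := by
    intro X
    rw [hs]
    have := Nat.lt_mul_div_succ X (hPpos X)
    simp only
    omega
  have hs2 : ∀ X, s X ≤ X + 2 * P X := by
    intro X
    have h1 : P X * (X / P X + 1) ≤ X + P X := by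
      rw [mul_add, mul_one]
      have := Nat.mul_div_le X (P X)
      omega
    have h2 := ha1 X
    rw [hs]
    rw [hP] at h1 ⊢
    simp only at h1 h2 ⊢
    omega
  have hll : ∀ᶠ X : ℕ in atTop, Real.log (2 * Real.log ((3 * X : ℕ) : ℝ)) ≤ 2 * Real.log (Real.log X) := by
    filter_upwards [log_three_mul, tlog.eventually_ge_atTop 6] with X h1 h2
    have h4 : 2 * Real.log ((3 * X : ℕ) : ℝ) ≤ Real.log X ^ 2 := by nlinarith
    calc Real.log (2 * Real.log ((3 * X : ℕ) : ℝ)) ≤ Real.log (Real.log X ^ 2) :=
          Real.log_le_log (by linarith) h4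
      _ = _ := by rw [Real.log_pow]; norm_num
  have hMp : ∀ᶠ X : ℕ in atTop, Real.exp (Real.log X / 4) ≤ M X * p X ∧ s X + Q X * M X + J X ≤ 2 * X := by
    filter_upwards [primorial_small z hz, log_three_mul, hll, hc1, hc2, hJ, tlog.eventually_ge_atTop 100,
      eventually_ge_atTop 1] with X h1 h2 h3 h4 h5 h6 h7 h8
    have hX0 : (0 : ℝ) < X := by exact_mod_cast h8
    have hP0 : (0 : ℝ) < P X := by exact_mod_cast hPpos X
    have hPl : Real.log (P X) ≤ 7 / 20 * (Real.log X + 2) := by
      rw [hP]
      refine h1.trans ?_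
      linarith [h2.2]
    have hQ0 : (0 : ℝ) < Q X := by exact_mod_cast hQpos X
    have hQl : Real.log (Q X) ≤ 7 / 20 * (Real.log X + 2) + Real.log X / 8 := by
      rw [hQ]
      push_cast
      rw [Real.log_mul hP0.ne' (by positivity)]
      linarith
    have hQX : Real.log (8 * Q X) ≤ Real.log X := by
      rw [Real.log_mul (by norm_num) hQ0.ne']
      linarith [log_eight]
    have hQX' : 8 * (Q X : ℝ) ≤ X := (Real.log_le_log_iff (by positivity) hX0).1 hQX
    have hQXn : 8 * Q X ≤ X := by exact_mod_cast hQX'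
    constructor
    · have hMl : (X : ℝ) / (8 * Q X) ≤ M X := by
        have h8 : (X : ℝ) / (4 * Q X) - 1 ≤ M X := by
          have h9 := Nat.lt_floor_add_one ((X : ℝ) / ((4 * Q X : ℕ) : ℝ))
          rw [Nat.floor_div_natCast, Nat.floor_natCast] at h9
          push_cast at h9
          rw [hM]
          linarith
        have h9 : (X : ℝ) / (4 * Q X) = 2 * (X / (8 * Q X)) := by
          field_simp
          ring
        have h10 : 1 ≤ (X : ℝ) / (8 * Q X) := by
          rw [le_div_iff₀ (by positivity), one_mul]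
          exact hQX'
        linarith
      have hpl : Real.exp (-(Real.log X / 8)) ≤ p X := by
        have hpos : 0 < 2 * Real.log ((3 * X : ℕ) : ℝ) := by linarith [h2.1]
        have e1 : p X = Real.exp (-((H X).card * Real.log (2 * Real.log ((3 * X : ℕ) : ℝ))) + -(J X * b X)) := by
          rw [hp, hc]
          simp only
          rw [Real.exp_add, one_div, inv_pow, ← Real.exp_nat_mul (-b X)]
          congr 1
          · rw [Real.exp_neg, ← Real.log_pow, Real.exp_log (pow_pos hpos _)]
          · ring_nf
        rw [e1]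
        apply Real.exp_le_exp.2
        have hc0 : (0 : ℝ) ≤ (H X).card := Nat.cast_nonneg _
        have e2 : ((H X).card : ℝ) * Real.log (2 * Real.log ((3 * X : ℕ) : ℝ)) ≤ (H X).card * (2 * Real.log (Real.log X)) :=
          mul_le_mul_of_nonneg_left h3 hc0
        have e3 : (J X : ℝ) * b X ≤ Real.log X / 16 := by
          rw [hb]
          simp only
          have hL : 0 < Real.log (X : ℝ) := by linarith
          have e4 : (J X : ℝ) * (3 * W (z (3 * X)) / Real.log X) = 3 * (J X : ℝ) * W (z (3 * X)) / Real.log X := by ring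
          rw [e4, div_le_iff₀ hL]
          calc 3 * (J X : ℝ) * W (z (3 * X)) ≤ Real.log X ^ 2 / 16 := h5
            _ = _ := by ring
        linarith
      have hMe : Real.exp (Real.log X - 3 - (7 / 20 * (Real.log X + 2) + Real.log X / 8)) ≤ M X := by
        refine le_trans ?_ hMl
        have h8 : (X : ℝ) / (8 * Q X) = Real.exp (Real.log X - Real.log (8 * Q X)) := by
          rw [Real.exp_sub, Real.exp_log hX0, Real.exp_log (by positivity)]
        rw [h8]
        apply Real.exp_le_exp.2
        rw [Real.log_mul (by norm_num) hQ0.ne']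
        linarith [log_eight]
      calc Real.exp (Real.log X / 4) ≤
          Real.exp (Real.log X - 3 - (7 / 20 * (Real.log X + 2) + Real.log X / 8)) *
            Real.exp (-(Real.log X / 8)) := by
            rw [← Real.exp_add]
            apply Real.exp_le_exp.2
            linarith
        _ ≤ _ := mul_le_mul hMe hpl (Real.exp_pos _).le (Nat.cast_nonneg _)
    · have h8 := hs2 X
      have h9 : Q X * M X ≤ X / 4 := by
        rw [hM]
        simp only
        have h10 : X / (4 * Q X) = X / 4 / Q X := by rw [Nat.div_div_eq_div_mul]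
        rw [h10]
        exact Nat.mul_div_le _ _
      have h10 : P X ≤ Q X := by
        rw [hQ]
        exact Nat.le_mul_of_pos_right _ (Nat.succ_pos _)
      have h11 : J X + 1 ≤ Q X := by
        rw [hQ]
        exact Nat.le_mul_of_pos_left _ (hPpos X)
      omega
  have hmain := patterns (μ := μ) (ℱ := ℱ) (ι := Unit) hA (rho2 z) (rho2_nonneg z) (rho2_le z) hd (fun _ => {()})
    (fun X _ => s X) (fun X _ => Q X) (fun X _ => J X) (fun X _ => M X)
    (fun X _ m => {r | ∃ h ∈ H X, r = s X + Q X * m + h}) (fun X _ => p X)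
    (Eventually.of_forall fun X _ _ => (hs1 X).le)
    (Eventually.of_forall fun X _ _ => by
      rw [hQ]
      have := Nat.le_mul_of_pos_left (J X + 1) (hPpos X)
      simp only
      omega)
    (by
      have hW3 := W_small z (by
        filter_upwards [hz] with m hm
        have : (0 : ℝ) ≤ z m := Nat.cast_nonneg _
        linarith) (1 / 3) (by norm_num)
      obtain ⟨n3, hn3⟩ := eventually_atTop.1 hW3
      filter_upwards [hMp, tlog.eventually_ge_atTop 3, log_three_mul, eventually_ge_atTop 2,
        eventually_ge_atTop n3, hH] with X h1 h2 h2' h3 h3' hHX _ _ m hm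
      obtain ⟨-, h4⟩ := h1
      obtain ⟨hi2, hi3⟩ := hHX
      have hlog := h2'.1
      have hmM : Q X * m + Q X ≤ Q X * M X := by
        have : m + 1 ≤ M X := hm
        calc Q X * m + Q X = Q X * (m + 1) := by ring
          _ ≤ _ := Nat.mul_le_mul_left _ this
      have hJQ : J X ≤ Q X := by
        rw [hQ]
        have := Nat.le_mul_of_pos_left (J X + 1) (hPpos X)
        simp only
        omega
      have hc0 : 0 < c X := by
        rw [hc]
        have : 0 < Real.log ((3 * X : ℕ) : ℝ) := by linarith
        positivity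
      have hb0 : 0 ≤ b X := by
        rw [hb]
        have h5 := W_ge (z (3 * X))
        have : 0 < Real.log (X : ℝ) := by linarith
        simp only
        positivity
      have hexpb : Real.exp (-b X) ≤ 1 := by
        rw [Real.exp_le_one_iff]
        linarith
      have hbd : ∀ r ∈ Finset.Ioc (s X + Q X * m) (s X + Q X * m + J X),
          (if r ∈ {r | ∃ h ∈ H X, r = s X + Q X * m + h} then c X else 1) * Real.exp (-b X) ≤
          fac (fun r => (1 - 1 / 2) * rho2 z r)
            (fun r => (1 + 1 / 2) * rho2 z r) {r | ∃ h ∈ H X, r = s X + Q X * m + h} r := by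
        intro r hr
        rw [Finset.mem_Ioc] at hr
        have hrX : X < r := by have := hs1 X; omega
        have hr2 : r ≤ 2 * X := by omega
        unfold fac
        split_ifs with hT
        · obtain ⟨h, hh, hrh⟩ := hT
          have hrough : Rough z r := by
            intro q hq hqz
            have hqz' : q ≤ z (3 * X) := hqz.trans (hmono (by omega))
            have h5 := ha2 X hi3 q hq hqz' (X / P X + 1 + (J X + 1) * m) h hh
            have h6 : r = a X + primorial (z (3 * X)) * (X / P X + 1 + (J X + 1) * m) + h := by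
              rw [hrh, hs, hQ, hP]
              simp only
              ring
            rw [h6]
            exact h5
          have h7 : 1 / Real.log ((3 * X : ℕ) : ℝ) ≤ rho2 z r := by
            unfold rho2
            rw [if_pos hrough]
            have hr1 : 0 < Real.log (r : ℝ) := Real.log_pos (by exact_mod_cast (by omega : 1 < r))
            have hr3 : Real.log (r : ℝ) ≤ Real.log ((3 * X : ℕ) : ℝ) := by
              apply Real.log_le_log (by exact_mod_cast (by omega : 0 < r))
              exact_mod_cast (by omega : r ≤ 3 * X)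
            refine le_min ?_ ?_
            · rw [div_le_div_iff₀ (by linarith) (by norm_num)]
              linarith
            · rw [div_le_div_iff₀ (by linarith) hr1]
              have := W_ge (z r)
              nlinarith
          have e : c X = (1 - 1 / 2) * (1 / Real.log ((3 * X : ℕ) : ℝ)) := by
            rw [hc]
            simp only
            rw [one_div, mul_inv]
            ring
          calc c X * Real.exp (-b X) ≤ c X := mul_le_of_le_one_right hc0.le hexpb
            _ = _ := e
            _ ≤ _ := mul_le_mul_of_nonneg_left h7 (by norm_num)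
        · rw [one_mul]
          have h5 := rho2_nonneg z r
          have h6 : rho2 z r ≤ 1 / 3 := (rho2_le' z r).trans (hn3 r (by omega)).le
          have h7 := one_sub_ge_exp (x := (1 + 1 / 2) * rho2 z r) (by positivity) (by linarith)
          refine le_trans (Real.exp_le_exp.2 ?_) h7
          have h8 : rho2 z r ≤ W (z (3 * X)) / Real.log X := by
            refine (rho2_le' z r).trans ?_
            apply div_le_div₀
            · linarith [W_ge (z (3 * X))]
            · exact W_mono (hmono (by omega))
            · linarith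
            · apply Real.log_le_log (by exact_mod_cast (by omega : 0 < X))
              exact_mod_cast hrX.le
          have h9 : b X = 3 * (W (z (3 * X)) / Real.log X) := by
            rw [hb]
            simp only
            ring
          rw [h9]
          linarith
      have hfilt : ((Finset.Ioc (s X + Q X * m) (s X + Q X * m + J X)).filter
          (fun r => r ∈ {r | ∃ h ∈ H X, r = s X + Q X * m + h})).card ≤ (H X).card := by
        refine le_trans (Finset.card_le_card (t := (H X).image (fun h => s X + Q X * m + h)) ?_)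
          Finset.card_image_le
        intro r hr
        obtain ⟨h, hh, hrh⟩ := (Finset.mem_filter.1 hr).2
        exact Finset.mem_image.2 ⟨h, hh, hrh.symm⟩
      have hc1' : c X ≤ 1 := by
        rw [hc]
        simp only
        rw [div_le_one (by linarith)]
        linarith
      rw [hp]
      simp only
      calc c X ^ (H X).card * Real.exp (-b X) ^ (J X) ≤
          ∏ r ∈ Finset.Ioc (s X + Q X * m) (s X + Q X * m + J X),
            ((if r ∈ {r | ∃ h ∈ H X, r = s X + Q X * m + h} then c X else 1) * Real.exp (-b X)) := by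
            rw [Finset.prod_mul_distrib, Finset.prod_const, Nat.card_Ioc, Finset.prod_ite, Finset.prod_const,
              Finset.prod_const_one, mul_one]
            have e9 : s X + Q X * m + J X - (s X + Q X * m) = J X := by omega
            rw [e9]
            exact mul_le_mul_of_nonneg_right (pow_le_pow_of_le_one hc0.le hc1' hfilt) (by positivity)
        _ ≤ _ := Finset.prod_le_prod (fun r _ => by
            split_ifs <;> positivity) hbd)
    (by
      have hexp : ∀ᶠ x : ℝ in atTop, 2 * x ≤ Real.exp (x / 4) := by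
        have h1 : Tendsto (fun x : ℝ => Real.exp x / x) atTop atTop := by
          simpa using Real.tendsto_exp_div_pow_atTop 1
        have h2 : Tendsto (fun x : ℝ => x / 4) atTop atTop := tendsto_id.atTop_div_const (by norm_num)
        filter_upwards [(h1.comp h2).eventually_ge_atTop 16, eventually_gt_atTop 0] with x h3 h4
        simp only [Function.comp] at h3
        rw [le_div_iff₀ (by positivity)] at h3
        linarith
      filter_upwards [hMp, tlog.eventually hexp, eventually_ge_atTop 1] with X h1 h3 h4 _ _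
      have hX0 : (0 : ℝ) < X := by exact_mod_cast h4
      obtain ⟨h5, -⟩ := h1
      calc ((({()} : Finset Unit).card : ℕ) : ℝ) * Real.exp (-(M X * p X)) ≤ Real.exp (-(2 * Real.log X)) := by
            rw [Finset.card_singleton, Nat.cast_one, one_mul]
            apply Real.exp_le_exp.2
            linarith
        _ = 1 / (X : ℝ) ^ 2 := by
            rw [Real.exp_neg, ← Real.log_rpow hX0, Real.exp_log (by positivity)]
            norm_num)
  filter_upwards [hmain] with ω hω
  filter_upwards [hω, hMp] with X h1 h2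
  obtain ⟨m, hm, h4⟩ := h1 () (Finset.mem_singleton_self _)
  obtain ⟨-, h5⟩ := h2
  have hmM : Q X * m ≤ Q X * M X := Nat.mul_le_mul_left _ hm.le
  refine ⟨s X + Q X * m, ?_, ?_, ?_⟩
  · have := hs1 X; omega
  · omega
  · intro i hi1 hi2
    have h6 := h4 (s X + Q X * m + i) (by omega) (by omega)
    rw [h6]
    constructor
    · rintro ⟨h, hh, h7⟩
      have : i = h := by omega
      rw [this]
      exact hh
    · intro h
      exact ⟨i, h, rfl⟩

end

end Pool.Agent.U310.Pat
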