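import Mathlib
import Pool.Agent.U310.Pat.One
import Pool.Agent.Cov.PNT

set_option autoImplicit false
set_option linter.unusedSectionVars false

/-! # Progressions of consecutive members: existence (helper310) -/

open MeasureTheory Filter Set
open scoped ENNReal Topology

namespace Pool.Agent.U310.Pat

open Pool.Agent.R528.RM
open Pool.Agent.U310.Mers (Rough W W_ge)

/-- the members of `Q` between `a` and `a + (k - 1) d` are exactly `a, a + d, ..., a + (k - 1) d` -/
def Run (Q : Set ℕ) (a d k : ℕ) : Prop :=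
  ∀ n, a ≤ n → n ≤ a + (k - 1) * d → (n ∈ Q ↔ ∃ i < k, n = a + i * d)

/-- the logarithm of the primorial -/
lemma log_primorial (ε : ℝ) (hε : 0 < ε) : ∃ y0 : ℕ, ∀ y, y0 ≤ y →
    (1 - ε) * y ≤ Real.log (primorial y) ∧ Real.log (primorial y) ≤ (1 + ε) * y := by
  have h1 := Pool.Agent.Cov.PNT.theta_div_tendsto
  have h2 := h1.comp tendsto_natCast_atTop_atTop (α := ℕ)
  have h3 := (Metric.tendsto_nhds.1 h2) ε hε
  obtain ⟨y0, hy0⟩ := eventually_atTop.1 (h3.and (eventually_ge_atTop 1))
  refine ⟨y0, fun y hy => ?_⟩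
  obtain ⟨h4, h5⟩ := hy0 y hy
  have hy : (0 : ℝ) < y := by exact_mod_cast h5
  simp only [Function.comp, Real.dist_eq, Chebyshev.theta_eq_log_primorial, Nat.floor_natCast] at h4
  rw [abs_lt] at h4
  constructor
  · have := h4.1
    rw [lt_sub_iff_add_lt, lt_div_iff₀ hy] at this
    linarith
  · have := h4.2
    rw [sub_lt_iff_lt_add, div_lt_iff₀ hy] at this
    linarith

/-- the relative positions of a progression -/
def prog (d k : ℕ) : Finset ℕ := (Finset.range k).image (fun j => 1 + j * d)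

lemma prog_card (d k : ℕ) : (prog d k).card ≤ k := by
  unfold prog
  exact Finset.card_image_le.trans (Finset.card_range k).le

lemma prog_bounds {d k : ℕ} (hd : 1 ≤ d) : ∀ h ∈ prog d k, 1 ≤ h ∧ h ≤ k * d := by
  intro h hh
  unfold prog at hh
  obtain ⟨j, hj, rfl⟩ := Finset.mem_image.1 hh
  rw [Finset.mem_range] at hj
  have : (j + 1) * d ≤ k * d := Nat.mul_le_mul_right d hj
  have e : (j + 1) * d = j * d + d := by ring
  omega

/-- progressions whose difference is divisible by the small primes are admissible -/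
lemma prog_adm {d k y : ℕ} (hd : ∀ p : ℕ, p.Prime → p ≤ y → p ≤ k → p ∣ d) :
    AdmL y (prog d k : Set ℕ) := by
  classical
  intro p hp hpy
  rcases le_or_gt p k with h1 | h1
  · refine ⟨0, fun h hh hdvd => ?_⟩
    rw [Finset.mem_coe] at hh
    unfold prog at hh
    obtain ⟨j, -, rfl⟩ := Finset.mem_image.1 hh
    have h2 := hd p hp hpy h1
    rw [zero_add] at hdvd
    have h3 : p ∣ 1 := (Nat.dvd_add_left (h2.mul_left j)).1 hdvd
    exact hp.one_lt.ne' (Nat.dvd_one.1 h3)
  · by_contra hcon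
    push Not at hcon
    choose f hf1 hf2 using hcon
    have h2 : (Finset.range p).card ≤ (prog d k).card := by
      refine Finset.card_le_card_of_injOn f (fun c _ => hf1 c) ?_
      intro c hc c' hc' hcc
      rw [Finset.mem_coe, Finset.mem_range] at hc hc'
      have h3 := hf2 c
      have h4 := hf2 c'
      rw [hcc] at h3
      have h5 : c + f c' ≡ c' + f c' [MOD p] := by
        rw [Nat.ModEq, Nat.mod_eq_zero_of_dvd h3, Nat.mod_eq_zero_of_dvd h4]
      have h6 : c ≡ c' [MOD p] := Nat.ModEq.add_right_cancel' _ h5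
      rw [Nat.ModEq, Nat.mod_eq_of_lt hc, Nat.mod_eq_of_lt hc'] at h6
      exact h6
    rw [Finset.card_range] at h2
    have := prog_card d k
    omega

lemma run_of_pattern {Q : Set ℕ} {x d k : ℕ} (hd : 1 ≤ d) (hk : 1 ≤ k)
    (h : ∀ i, 1 ≤ i → i ≤ k * d → (x + i ∈ Q ↔ i ∈ prog d k)) : Run Q (x + 1) d k := by
  intro n h1 h2
  have h3 : (k - 1) * d + d = k * d := by
    obtain ⟨l, rfl⟩ : ∃ l, k = l + 1 := ⟨k - 1, by omega⟩
    rw [Nat.add_sub_cancel]
    ring
  have h4 := h (n - x) (by omega) (by omega)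
  have e : x + (n - x) = n := by omega
  rw [e] at h4
  rw [h4]
  unfold prog
  rw [Finset.mem_image]
  constructor
  · rintro ⟨j, hj, h5⟩
    rw [Finset.mem_range] at hj
    exact ⟨j, hj, by omega⟩
  · rintro ⟨j, hj, h5⟩
    exact ⟨j, Finset.mem_range.2 hj, by omega⟩

end Pool.Agent.U310.Pat
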