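import Mathlib
import Pool.Agent.U310.Pat.AP1

set_option autoImplicit false
set_option linter.unusedSectionVars false

/-! # Progressions of consecutive members: lower bounds (helper310) -/

open MeasureTheory Filter Set
open scoped ENNReal Topology

namespace Pool.Agent.U310.Pat

open Pool.Agent.R528.RM
open Pool.Agent.U310.Mers (Rough W W_ge)

lemma tloglog : Tendsto (fun X : ℕ => Real.log (Real.log (X : ℝ))) atTop atTop :=
  Real.tendsto_log_atTop.comp tlog

lemma ev_exp (C α β : ℝ) (h : α < β) :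
    ∀ᶠ u : ℝ in atTop, C * (1 + u) ^ 2 * Real.exp (α * u) ≤ Real.exp (β * u) := by
  have h1 := (isLittleO_pow_exp_pos_mul_atTop (k := 2) (sub_pos.2 h)).def
    (show (0 : ℝ) < 1 / (4 * (|C| + 1)) by positivity)
  filter_upwards [h1, eventually_ge_atTop 1] with u h2 h3
  rw [Real.norm_of_nonneg (by positivity), Real.norm_of_nonneg (Real.exp_pos _).le] at h2
  have h4 : C * (1 + u) ^ 2 ≤ Real.exp ((β - α) * u) := by
    have h5 : (1 + u) ^ 2 ≤ 4 * u ^ 2 := by nlinarith
    have h6 : C * (1 + u) ^ 2 ≤ (|C| + 1) * (4 * u ^ 2) := by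
      have h7 : C ≤ |C| + 1 := by linarith [le_abs_self C]
      have h8 : 0 ≤ |C| + 1 := by positivity
      have h9 : 0 ≤ (1 + u) ^ 2 := by positivity
      nlinarith
    calc C * (1 + u) ^ 2 ≤ (|C| + 1) * (4 * u ^ 2) := h6
      _ = 4 * (|C| + 1) * u ^ 2 := by ring
      _ ≤ 4 * (|C| + 1) * (1 / (4 * (|C| + 1)) * Real.exp ((β - α) * u)) :=
        mul_le_mul_of_nonneg_left h2 (by positivity)
      _ = _ := by field_simp
  calc C * (1 + u) ^ 2 * Real.exp (α * u) ≤ Real.exp ((β - α) * u) * Real.exp (α * u) :=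
        mul_le_mul_of_nonneg_right h4 (Real.exp_pos _).le
    _ = _ := by rw [← Real.exp_add]; ring_nf

section
variable {Ω : Type} {m0 : MeasurableSpace Ω} {μ : Measure Ω} [IsProbabilityMeasure μ]
  {ℱ : Filtration ℕ m0} {A : ℕ → Set Ω}

/-- progressions of consecutive members in `(X, 2 X]` -/
theorem runs_exist (hA : ∀ n, MeasurableSet[ℱ n] (A n)) (z : ℕ → ℕ) (hmono : Monotone z)
    (hz : ∀ᶠ m : ℕ in atTop, 4 * (z m : ℝ) ≤ Real.log m)
    (hd : ∀ᵐ ω ∂μ, ∀ ε : ℝ, 0 < ε → ∀ᶠ n : ℕ in atTop,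
      |dens μ ℱ A n ω - rho2 z (n + 1)| ≤ ε * rho2 z (n + 1))
    (kf df : ℕ → ℕ) (hk : ∀ X, 1 ≤ kf X) (hd1 : ∀ X, 1 ≤ df X)
    (hadm : ∀ᶠ X : ℕ in atTop, ∀ p : ℕ, p.Prime → p ≤ z (3 * X) → p ≤ kf X → p ∣ df X)
    (C α β : ℝ) (hα : α < 1) (hβ : β < 2)
    (hb1 : ∀ᶠ X : ℕ in atTop, (kf X : ℝ) ≤ C * (1 + Real.log (Real.log X)) * Real.exp (α * Real.log (Real.log X)))
    (hb2 : ∀ᶠ X : ℕ in atTop, (kf X : ℝ) * df X ≤
      C * (1 + Real.log (Real.log X)) * Real.exp (β * Real.log (Real.log X))) :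
    ∀ᵐ ω ∂μ, ∀ᶠ X : ℕ in atTop, ∃ a, X < a ∧ a + (kf X - 1) * df X ≤ 2 * X ∧
      Run {n | ω ∈ A n} a (df X) (kf X) := by
  obtain ⟨C2, hC2, hW⟩ := W_bound
  have hL : ∀ᶠ X : ℕ in atTop, Real.exp (Real.log (Real.log X)) = Real.log X := by
    filter_upwards [tlog.eventually_gt_atTop 0] with X hX
    exact Real.exp_log hX
  have h := one_pattern (μ := μ) (ℱ := ℱ) hA z hmono hz hd (fun X => kf X * df X) (fun X => prog (df X) (kf X))
    (by
      filter_upwards [hadm] with X hX
      exact ⟨prog_bounds (hd1 X), prog_adm hX⟩)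
    (by
      filter_upwards [hb1, hL, tloglog.eventually (ev_exp (32 * |C|) α 1 hα), tloglog.eventually_ge_atTop 1] with X h1 h2 h3 h4
      rw [one_mul, h2] at h3
      set u := Real.log (Real.log (X : ℝ)) with hu
      have hc : ((prog (df X) (kf X)).card : ℝ) ≤ kf X := by exact_mod_cast prog_card _ _
      have h5 : (kf X : ℝ) ≤ |C| * (1 + u) * Real.exp (α * u) := by
        refine h1.trans ?_
        have : C * (1 + u) ≤ |C| * (1 + u) := mul_le_mul_of_nonneg_right (le_abs_self C) (by linarith)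
        exact mul_le_mul_of_nonneg_right this (Real.exp_pos _).le
      have h6 : ((prog (df X) (kf X)).card : ℝ) * (2 * u) ≤ |C| * (1 + u) * Real.exp (α * u) * (2 * u) :=
        mul_le_mul_of_nonneg_right (hc.trans h5) (by linarith)
      have h7 : |C| * (1 + u) * Real.exp (α * u) * (2 * u) ≤ 2 * (|C| * (1 + u) ^ 2 * Real.exp (α * u)) := by
        have h8 : 0 ≤ |C| * (1 + u) * Real.exp (α * u) := by positivity
        nlinarith
      linarith)
    (by
      filter_upwards [hb2, hL, tloglog.eventually (ev_exp (48 * |C| * C2) β 2 hβ), tloglog.eventually_ge_atTop 1,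
        log_three_mul, (tendsto_id.const_mul_atTop' (show 0 < 3 by norm_num)).eventually hz,
        tlog.eventually_ge_atTop 2] with X h1 h2 h3 h4 h5 h6 h7
      have e2 : Real.exp (2 * Real.log (Real.log (X : ℝ))) = Real.log X ^ 2 := by
        have : 2 * Real.log (Real.log (X : ℝ)) = Real.log (Real.log X) + Real.log (Real.log X) := by ring
        rw [this, Real.exp_add, h2]
        ring
      rw [e2] at h3
      set u := Real.log (Real.log (X : ℝ)) with hu
      have hz3 : Real.log (z (3 * X)) ≤ u := by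
        simp only [id] at h6
        rcases Nat.eq_zero_or_pos (z (3 * X)) with h8 | h8
        · rw [h8, Nat.cast_zero, Real.log_zero]
          linarith
        · rw [hu]
          apply Real.log_le_log (by exact_mod_cast h8)
          linarith [h5.2]
      have hW' : W (z (3 * X)) ≤ C2 * (1 + u) := by
        refine (hW _).trans ?_
        nlinarith
      have hkd : ((kf X * df X : ℕ) : ℝ) ≤ |C| * (1 + u) * Real.exp (β * u) := by
        push_cast
        refine h1.trans ?_
        have : C * (1 + u) ≤ |C| * (1 + u) := mul_le_mul_of_nonneg_right (le_abs_self C) (by linarith)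
        exact mul_le_mul_of_nonneg_right this (Real.exp_pos _).le
      have hWp : 0 ≤ W (z (3 * X)) := by linarith [W_ge (z (3 * X))]
      calc 3 * ((kf X * df X : ℕ) : ℝ) * W (z (3 * X)) ≤ 3 * (|C| * (1 + u) * Real.exp (β * u)) * (C2 * (1 + u)) := by
            apply mul_le_mul _ hW' hWp (by positivity)
            linarith
        _ = 48 * |C| * C2 * (1 + u) ^ 2 * Real.exp (β * u) / 16 := by ring
        _ ≤ _ := by linarith)
    (by
      filter_upwards [hb2, hL, tloglog.eventually (ev_exp (|C| + 1) β 2 hβ), tloglog.eventually_ge_atTop 1,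
        tloglog.eventually (ev_exp 16 0 1 one_pos), tloglog.eventually (ev_exp 1 0 2 (by norm_num))] with X h1 h2 h3 h4 h5 h6
      rw [one_mul, h2] at h5
      set u := Real.log (Real.log (X : ℝ)) with hu
      have hkd : ((kf X * df X : ℕ) : ℝ) ≤ |C| * (1 + u) * Real.exp (β * u) := by
        push_cast
        refine h1.trans ?_
        have : C * (1 + u) ≤ |C| * (1 + u) := mul_le_mul_of_nonneg_right (le_abs_self C) (by linarith)
        exact mul_le_mul_of_nonneg_right this (Real.exp_pos _).le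
      have h7 : ((kf X * df X : ℕ) : ℝ) + 1 ≤ 2 * Real.exp (2 * u) := by
        have h8 : |C| * (1 + u) * Real.exp (β * u) ≤ (|C| + 1) * (1 + u) ^ 2 * Real.exp (β * u) := by
          apply mul_le_mul_of_nonneg_right _ (Real.exp_pos _).le
          have h11 : 0 ≤ |C| := abs_nonneg C
          have h12 : 1 + u ≤ (1 + u) ^ 2 := by nlinarith
          calc |C| * (1 + u) ≤ |C| * (1 + u) ^ 2 := mul_le_mul_of_nonneg_left h12 h11
            _ ≤ (|C| + 1) * (1 + u) ^ 2 := mul_le_mul_of_nonneg_right (by linarith) (by positivity)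
        have h9 : (1 : ℝ) ≤ Real.exp (2 * u) := Real.one_le_exp (by linarith)
        linarith
      have h10 : Real.log (((kf X * df X : ℕ) : ℝ) + 1) ≤ Real.log (2 * Real.exp (2 * u)) :=
        Real.log_le_log (by positivity) h7
      rw [Real.log_mul (by norm_num) (Real.exp_pos _).ne', Real.log_exp] at h10
      rw [zero_mul, Real.exp_zero, mul_one] at h5
      have := Real.log_two_lt_d9
      nlinarith)
  filter_upwards [h] with ω hω
  filter_upwards [hω] with X hX
  obtain ⟨x, hx1, hx2, hx3⟩ := hX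
  refine ⟨x + 1, by omega, ?_, run_of_pattern (hd1 X) (hk X) hx3⟩
  have h3 : (kf X - 1) * df X + df X = kf X * df X := by
    obtain ⟨l, hl⟩ : ∃ l, kf X = l + 1 := ⟨kf X - 1, by have := hk X; omega⟩
    rw [hl, Nat.add_sub_cancel]
    ring
  have := hd1 X
  omega

end

/-- the length of the longest progression of consecutive members of `Q` up to `X` -/
noncomputable def LL (Q : Set ℕ) (X : ℕ) : ℕ :=
  sSup {k | ∃ a d, 1 ≤ a ∧ 1 ≤ d ∧ a + (k - 1) * d ≤ X ∧ Run Q a d k}

lemma LL_bdd (Q : Set ℕ) (X : ℕ) : BddAbove {k | ∃ a d, 1 ≤ a ∧ 1 ≤ d ∧ a + (k - 1) * d ≤ X ∧ Run Q a d k} := by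
  refine ⟨X + 1, ?_⟩
  rintro k ⟨a, d, h1, h2, h3, -⟩
  have : (k - 1) * 1 ≤ (k - 1) * d := Nat.mul_le_mul_left _ h2
  omega

lemma le_LL {Q : Set ℕ} {X k a d : ℕ} (h1 : 1 ≤ a) (h2 : 1 ≤ d) (h3 : a + (k - 1) * d ≤ X) (h4 : Run Q a d k) :
    k ≤ LL Q X := le_csSup (LL_bdd Q X) ⟨a, d, h1, h2, h3, h4⟩

lemma LL_mem {Q : Set ℕ} {X : ℕ} (h : 0 < LL Q X) : ∃ a d, 1 ≤ a ∧ 1 ≤ d ∧ a + (LL Q X - 1) * d ≤ X ∧ Run Q a d (LL Q X) := by
  have hne : {k | ∃ a d, 1 ≤ a ∧ 1 ≤ d ∧ a + (k - 1) * d ≤ X ∧ Run Q a d k}.Nonempty := by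
    by_contra hcon
    rw [Set.not_nonempty_iff_eq_empty] at hcon
    unfold LL at h
    rw [hcon] at h
    simp at h
  exact Nat.sSup_mem hne (LL_bdd Q X)

end Pool.Agent.U310.Pat
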