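import Mathlib
import Pool.Agent.U310.Pat.Prof
import Pool.Agent.U839.Sv.Count

set_option autoImplicit false
set_option linter.unusedSectionVars false

/-! # Sums of the sieve weights over windows (helper310; the counting theorem is `U839.Sv.stretch`) -/

open Finset Filter Topology

namespace Pool.Agent.U310.Pat

open Pool.Agent.U310.Mers (Rough W W_ge)

lemma W_eq839 (t : ℕ) : Pool.Agent.U839.Sv.W t = W t := by
  unfold Pool.Agent.U839.Sv.W W
  simp only [one_div]

open Classical in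
/-- the sieve weight -/
noncomputable def sw (z : ℕ → ℕ) (m : ℕ) : ℝ := if Rough z m then W (z m) else 0

lemma sw_nonneg (z : ℕ → ℕ) (m : ℕ) : 0 ≤ sw z m := by
  unfold sw
  split_ifs
  · linarith [W_ge (z m)]
  · exact le_rfl

lemma sw_eq (z : ℕ → ℕ) (m : ℕ) : sw z m = Pool.Agent.U839.Sv.wt z ∅ 0 m := by
  unfold sw Pool.Agent.U839.Sv.wt
  rw [W_eq839]
  congr 1
  apply propext
  constructor
  · intro h p h1 h2 _
    exact h p h1 h2
  · intro h p h1 h2
    exact h p h1 h2 (Finset.notMem_empty p)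

theorem W_le' (t : ℕ) : Pool.Agent.U839.Sv.W t ≤ t + 1 := by
  rcases Nat.eq_zero_or_pos t with h | h
  · rw [h, Pool.Agent.U839.Sv.W_eq]
    have : Pool.Agent.U839.Sv.Pr 0 = ∅ := by decide
    rw [this]; simp
  · have := Pool.Agent.U839.Sv.W_le t h
    linarith

theorem err_le (R t : ℕ) : ((t : ℝ) + 1) * (Pool.Agent.U839.Sv.W t * Pool.Agent.U839.Sv.Er R t) ≤
    ((t : ℝ) + 2) ^ (8 * R + 18) := by
  have h0 : (0 : ℝ) ≤ t := Nat.cast_nonneg t
  have h1 : Pool.Agent.U839.Sv.Er R t ≤ ((t : ℝ) + 2) ^ (8 * R + 16) := by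
    unfold Pool.Agent.U839.Sv.Er
    apply pow_le_pow_left₀ (by positivity)
    push_cast
    apply max_le <;> linarith
  calc ((t : ℝ) + 1) * (Pool.Agent.U839.Sv.W t * Pool.Agent.U839.Sv.Er R t) ≤
      (t + 2) * ((t + 2) * (t + 2) ^ (8 * R + 16)) := by
        apply mul_le_mul (by linarith) _
          (mul_nonneg (Pool.Agent.U839.Sv.W_pos t).le (Pool.Agent.U839.Sv.Er_nonneg R t)) (by linarith)
        exact mul_le_mul (by linarith [W_le' t]) h1 (Pool.Agent.U839.Sv.Er_nonneg R t) (by linarith)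
    _ = _ := by ring

/-- sums over windows -/
theorem sum_window (R : ℕ) (hR : 13 ≤ R) (z : ℕ → ℕ) (hz : Monotone z) (n K : ℕ) :
    |∑ m ∈ Ioc n (n + K), sw z m - K| ≤
      2 ^ 25 * (1 / 2) ^ (2 * R) * K + ((z (n + K) : ℝ) + 2) ^ (8 * R + 18) := by
  have h := Pool.Agent.U839.Sv.stretch R hR z hz ∅ (by simp) 0 n K (by simp)
  simp only [Finset.prod_empty, inv_one, one_mul] at h
  have h1 : ∑ m ∈ Ioc n (n + K), sw z m = ∑ j ∈ Ioc n (n + K), Pool.Agent.U839.Sv.wt z ∅ 0 j :=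
    Finset.sum_congr rfl (fun m _ => sw_eq z m)
  rw [h1]
  refine h.trans ?_
  have h2 := err_le R (z (n + K))
  linarith

/-- lower bound for the sum of the densities over a window -/
theorem rho2_window (z : ℕ → ℕ) (hmono : Monotone z)
    (hz : ∀ᶠ m : ℕ in atTop, (z m : ℝ) ≤ Real.log m ^ ((1 : ℝ) / 100)) (δ : ℝ) (hδ : 0 < δ) :
    ∀ᶠ t : ℕ in atTop, 4 * Real.log t ≤
      ∑ m ∈ Ioc t (t + ⌊Real.log t ^ (2 + δ)⌋₊), rho2 z m := by
  have hz1 : ∀ᶠ m : ℕ in atTop, (z m : ℝ) ≤ Real.log m := by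
    filter_upwards [hz, tlog.eventually_ge_atTop 1] with m h1 h2
    refine h1.trans ?_
    calc Real.log m ^ ((1 : ℝ) / 100) ≤ Real.log m ^ (1 : ℝ) :=
          Real.rpow_le_rpow_of_exponent_le h2 (by norm_num)
      _ = _ := Real.rpow_one _
  have hW := W_small z hz1 (1 / 2) (by norm_num)
  obtain ⟨n1, hn1⟩ := eventually_atTop.1 hW
  have h2x : Tendsto (fun X : ℕ => 2 * X) atTop atTop := tendsto_id.const_mul_atTop' (by norm_num)
  have hK : ∀ᶠ x : ℝ in atTop, x ^ (2 + δ) ≤ Real.exp x := by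
    have h1 := (isLittleO_rpow_exp_atTop (2 + δ)).def one_pos
    filter_upwards [h1, eventually_ge_atTop 0] with x h2 h3
    rw [Real.norm_of_nonneg (by positivity), Real.norm_of_nonneg (Real.exp_pos _).le, one_mul] at h2
    exact h2
  have hbig : ∀ᶠ x : ℝ in atTop, 128 ≤ x ^ δ := (tendsto_rpow_atTop hδ).eventually_ge_atTop 128
  have herr : ∀ᶠ x : ℝ in atTop, (3 * (2 * x) ^ ((1 : ℝ) / 100)) ^ 122 ≤ x ^ 2 / 8 := by
    have h1 : Tendsto (fun x : ℝ => x ^ ((2 : ℝ) - 122 / 100)) atTop atTop := tendsto_rpow_atTop (by norm_num)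
    filter_upwards [h1.eventually_ge_atTop (8 * (3 ^ 122 * (2 : ℝ) ^ ((122 : ℝ) / 100))),
      eventually_ge_atTop 1] with x h2 h3
    have h4 : (3 * (2 * x) ^ ((1 : ℝ) / 100)) ^ 122 = 3 ^ 122 * ((2 : ℝ) ^ ((122 : ℝ) / 100) * x ^ ((122 : ℝ) / 100)) := by
      rw [mul_pow, ← Real.rpow_natCast ((2 * x) ^ ((1 : ℝ) / 100)) 122, ← Real.rpow_mul (by positivity),
        Real.mul_rpow (by norm_num) (by linarith)]
      norm_num
    have h5 : x ^ 2 = x ^ ((2 : ℝ) - 122 / 100) * x ^ ((122 : ℝ) / 100) := by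
      rw [← Real.rpow_add (by linarith)]
      norm_num
    rw [h4, h5]
    have h6 : 0 ≤ x ^ ((122 : ℝ) / 100) := by positivity
    nlinarith
  filter_upwards [tlog.eventually hK, tlog.eventually hbig, tlog.eventually herr, h2x.eventually hz,
    tlog.eventually_ge_atTop 4, eventually_ge_atTop n1, eventually_ge_atTop 2] with t h1 h2 h3 h4 h5 h6 h7
  have ht0 : (0 : ℝ) < t := by exact_mod_cast (by omega : 0 < t)
  obtain ⟨K, hKd⟩ : ∃ K, K = ⌊Real.log t ^ (2 + δ)⌋₊ := ⟨_, rfl⟩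
  rw [← hKd]
  obtain ⟨L, hL⟩ : ∃ L, L = Real.log (t : ℝ) := ⟨_, rfl⟩
  rw [← hL] at h1 h2 h3 h5 hKd ⊢
  have hKt : K ≤ t := by
    have h8 : (K : ℝ) ≤ t := by
      rw [hKd]
      refine (Nat.floor_le (by positivity)).trans (h1.trans ?_)
      rw [hL, Real.exp_log ht0]
    exact_mod_cast h8
  have hK2 : L ^ (2 + δ) - 1 ≤ K := by
    rw [hKd]
    exact (Nat.sub_one_lt_floor _).le
  have hLL : L ^ (2 + δ) = L ^ 2 * L ^ δ := by
    rw [Real.rpow_add (by linarith)]
    norm_num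
  have h9 := sum_window 13 le_rfl z hmono t K
  have h10 : ((z (t + K) : ℝ) + 2) ^ (8 * 13 + 18) ≤ L ^ 2 / 8 := by
    refine le_trans ?_ h3
    apply pow_le_pow_left₀ (by positivity)
    have h11 : (z (t + K) : ℝ) ≤ z (2 * t) := by exact_mod_cast hmono (by omega)
    have h12 : Real.log ((2 * t : ℕ) : ℝ) ≤ 2 * L := by
      push_cast
      rw [Real.log_mul (by norm_num) ht0.ne', ← hL]
      have := Real.log_two_lt_d9
      linarith
    have h13 : (z (2 * t) : ℝ) ≤ (2 * L) ^ ((1 : ℝ) / 100) :=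
      h4.trans (Real.rpow_le_rpow (Real.log_natCast_nonneg _) h12 (by norm_num))
    have h14 : (1 : ℝ) ≤ (2 * L) ^ ((1 : ℝ) / 100) := Real.one_le_rpow (by linarith) (by norm_num)
    linarith
  have h11 : (K : ℝ) / 2 - L ^ 2 / 8 ≤ ∑ m ∈ Ioc t (t + K), sw z m := by
    rw [abs_le] at h9
    have h12 := h9.1
    norm_num at h12 h10
    linarith
  have h12 : ∑ m ∈ Ioc t (t + K), sw z m / (2 * L) ≤ ∑ m ∈ Ioc t (t + K), rho2 z m := by
    refine Finset.sum_le_sum fun m hm => ?_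
    rw [mem_Ioc] at hm
    unfold sw rho2
    split_ifs with h13
    · have h14 : W (z m) / Real.log m < 1 / 2 := hn1 m (by omega)
      rw [min_eq_right h14.le]
      apply div_le_div_of_nonneg_left
      · linarith [W_ge (z m)]
      · exact Real.log_pos (by exact_mod_cast (by omega : 1 < m))
      · calc Real.log (m : ℝ) ≤ Real.log ((2 * t : ℕ) : ℝ) :=
              Real.log_le_log (by exact_mod_cast (by omega : 0 < m)) (by exact_mod_cast (by omega : m ≤ 2 * t))
          _ ≤ 2 * L := by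
            push_cast
            rw [Real.log_mul (by norm_num) ht0.ne', ← hL]
            have := Real.log_two_lt_d9
            linarith
    · simp
  refine le_trans ?_ h12
  rw [← Finset.sum_div, le_div_iff₀ (by linarith)]
  have h15 : 0 < L ^ 2 := by positivity
  have h16 : 128 * L ^ 2 ≤ L ^ (2 + δ) := by
    rw [hLL]
    nlinarith
  nlinarith

end Pool.Agent.U310.Pat
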