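import Mathlib
import Pool.Agent.U310.Pat.AP2
import Pool.Agent.U310.Pat.SumWin

set_option autoImplicit false
set_option linter.unusedSectionVars false

/-! # Progressions of consecutive members: the two laws (helper310) -/

open MeasureTheory Filter Set
open scoped ENNReal Topology

namespace Pool.Agent.U310.Pat

open Pool.Agent.R528.RM
open Pool.Agent.U310.Mers (Rough W W_ge)

lemma loglog_two : ∀ᶠ Y : ℕ in atTop, Real.log (Real.log (Y : ℝ)) ≤ Real.log (Real.log ((2 * Y + 1 : ℕ) : ℝ)) ∧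
    Real.log (Real.log ((2 * Y + 1 : ℕ) : ℝ)) ≤ 1 + Real.log (Real.log Y) ∧
    Real.log (Real.log ((3 * Y : ℕ) : ℝ)) ≤ 1 + Real.log (Real.log Y) := by
  filter_upwards [log_three_mul, tlog.eventually_ge_atTop 2, eventually_ge_atTop 1] with Y h1 h2 h3
  have hY : (0 : ℝ) < Y := by exact_mod_cast h3
  have h4 : Real.log (Y : ℝ) ≤ Real.log ((2 * Y + 1 : ℕ) : ℝ) :=
    Real.log_le_log hY (by exact_mod_cast (by omega : Y ≤ 2 * Y + 1))
  have h5 : Real.log ((2 * Y + 1 : ℕ) : ℝ) ≤ Real.log ((3 * Y : ℕ) : ℝ) :=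
    Real.log_le_log (by positivity) (by exact_mod_cast (by omega : 2 * Y + 1 ≤ 3 * Y))
  have h6 : Real.log ((3 * Y : ℕ) : ℝ) ≤ Real.exp 1 * Real.log Y := by
    have := Real.add_one_le_exp (1 : ℝ)
    nlinarith [h1.2]
  have h7 : Real.log (Real.exp 1 * Real.log (Y : ℝ)) = 1 + Real.log (Real.log Y) := by
    rw [Real.log_mul (Real.exp_pos 1).ne' (by linarith), Real.log_exp]
  refine ⟨Real.log_le_log (by linarith) h4, ?_, ?_⟩
  · rw [← h7]
    exact Real.log_le_log (by linarith) (h5.trans h6)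
  · rw [← h7]
    exact Real.log_le_log (by linarith [h1.1]) h6

lemma log_primorial_all (ε : ℝ) (hε : 0 < ε) : ∃ c : ℝ, 0 ≤ c ∧ ∀ y : ℕ,
    Real.log (primorial y) ≤ (1 + ε) * y + c := by
  obtain ⟨y0, hy0⟩ := log_primorial ε hε
  have hmono : ∀ y, y ≤ y0 → Real.log (primorial y) ≤ Real.log (primorial y0) := by
    intro y hy
    apply Real.log_le_log (by exact_mod_cast primorial_pos y)
    have : primorial y ≤ primorial y0 := by
      unfold primorial
      refine Finset.prod_le_prod_of_subset_of_one_le' ?_ ?_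
      · intro p hp
        rw [Finset.mem_filter, Finset.mem_range] at hp ⊢
        exact ⟨by omega, hp.2⟩
      · intro p hp _
        exact (Finset.mem_filter.1 hp).2.one_lt.le
    exact_mod_cast this
  refine ⟨Real.log (primorial y0), Real.log_natCast_nonneg _, fun y => ?_⟩
  have h0 : (0 : ℝ) ≤ y := Nat.cast_nonneg y
  rcases le_total y y0 with h | h
  · have := hmono y h
    nlinarith
  · have := (hy0 y h).2
    have h1 := Real.log_natCast_nonneg (primorial y0)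
    linarith

section
variable {Ω : Type} {m0 : MeasurableSpace Ω} {μ : Measure Ω} [IsProbabilityMeasure μ]
  {ℱ : Filtration ℕ m0} {A : ℕ → Set Ω}

/-- from runs in `(Y, 2 Y]` to the longest run up to `N` -/
lemma LL_of_runs {Q : Set ℕ} (kf df : ℕ → ℕ) (hd1 : ∀ X, 1 ≤ df X) (f : ℕ → ℝ)
    (hf : ∀ᶠ N : ℕ in atTop, f N ≤ kf (N / 2))
    (h : ∀ᶠ X : ℕ in atTop, ∃ a, X < a ∧ a + (kf X - 1) * df X ≤ 2 * X ∧ Run Q a (df X) (kf X)) :
    ∀ᶠ N : ℕ in atTop, f N ≤ LL Q N := by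
  have h2 : Tendsto (fun N : ℕ => N / 2) atTop atTop := Nat.tendsto_div_const_atTop (by norm_num)
  filter_upwards [h2.eventually h, hf] with N h3 h4
  obtain ⟨a, h5, h6, h7⟩ := h3
  have h8 := le_LL (Q := Q) (X := N) (k := kf (N / 2)) (a := a) (d := df (N / 2)) (by omega) (hd1 _)
    (by omega) h7
  refine h4.trans ?_
  exact_mod_cast h8

lemma double_half (N : ℕ) : N ≤ 2 * (N / 2) + 1 := by omega

/-- progressions of length `(2 - ε) log log N` -/
theorem LL_lower1 (hA : ∀ n, MeasurableSet[ℱ n] (A n)) (z : ℕ → ℕ) (hmono : Monotone z)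
    (hz : ∀ᶠ m : ℕ in atTop, 4 * (z m : ℝ) ≤ Real.log m)
    (hd : ∀ᵐ ω ∂μ, ∀ ε : ℝ, 0 < ε → ∀ᶠ n : ℕ in atTop,
      |dens μ ℱ A n ω - rho2 z (n + 1)| ≤ ε * rho2 z (n + 1)) (ε : ℝ) (hε : 0 < ε) (hε1 : ε < 1) :
    ∀ᵐ ω ∂μ, ∀ᶠ N : ℕ in atTop, (2 - ε) * Real.log (Real.log N) ≤ LL {n | ω ∈ A n} N := by
  obtain ⟨kf, hkf⟩ : ∃ kf : ℕ → ℕ, kf = fun Y : ℕ => ⌈(2 - ε) * Real.log (Real.log ((2 * Y + 1 : ℕ) : ℝ))⌉₊ + 1 :=
    ⟨_, rfl⟩
  obtain ⟨c, hc, hprim⟩ := log_primorial_all (ε / 4) (by positivity)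
  have hkb : ∀ᶠ Y : ℕ in atTop, (kf Y : ℝ) ≤ (2 - ε) * (1 + Real.log (Real.log Y)) + 2 := by
    filter_upwards [loglog_two, tloglog.eventually_ge_atTop 1] with Y h1 h2
    rw [hkf]
    push_cast
    have h3 : 0 ≤ (2 - ε) * Real.log (Real.log ((2 * Y + 1 : ℕ) : ℝ)) :=
      mul_nonneg (by linarith) (by linarith [h1.1])
    have h4 := Nat.ceil_lt_add_one h3
    have h5 : (2 - ε) * Real.log (Real.log ((2 * Y + 1 : ℕ) : ℝ)) ≤ (2 - ε) * (1 + Real.log (Real.log Y)) :=
      mul_le_mul_of_nonneg_left h1.2.1 (by linarith)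
    push_cast at h4 h5
    linarith
  obtain ⟨C, hC⟩ : ∃ C : ℝ, C = 4 * Real.exp (8 + c) := ⟨_, rfl⟩
  have he1 : 1 ≤ Real.exp (8 + c) := Real.one_le_exp (by linarith)
  have h := runs_exist (μ := μ) (ℱ := ℱ) hA z hmono hz hd kf (fun Y => primorial (kf Y))
    (fun X => by rw [hkf]; exact Nat.succ_pos _) (fun X => primorial_pos _)
    (Eventually.of_forall fun X p hp _ hpk => dvd_primorial' hp hpk) C 0 ((1 + ε / 4) * (2 - ε))
    one_pos (by nlinarith)
    (by
      filter_upwards [hkb, tloglog.eventually_ge_atTop 1] with Y h1 h2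
      rw [zero_mul, Real.exp_zero, mul_one]
      have h3 : 4 ≤ C := by linarith
      nlinarith)
    (by
      filter_upwards [hkb, tloglog.eventually_ge_atTop 1] with Y h1 h2
      obtain ⟨u, hu⟩ : ∃ u, u = Real.log (Real.log (Y : ℝ)) := ⟨_, rfl⟩
      rw [← hu] at h1 h2 ⊢
      have h3 : (kf Y : ℝ) ≤ 4 * (1 + u) := by nlinarith
      have h4 : Real.log (primorial (kf Y)) ≤ (8 + c) + (1 + ε / 4) * (2 - ε) * u := by
        refine (hprim (kf Y)).trans ?_
        have h5 : (1 + ε / 4) * (kf Y : ℝ) ≤ (1 + ε / 4) * ((2 - ε) * (1 + u) + 2) :=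
          mul_le_mul_of_nonneg_left h1 (by positivity)
        nlinarith
      have h6 : (primorial (kf Y) : ℝ) ≤ Real.exp (8 + c) * Real.exp ((1 + ε / 4) * (2 - ε) * u) := by
        have h7 : (0 : ℝ) < primorial (kf Y) := by exact_mod_cast primorial_pos _
        rw [← Real.exp_add, ← Real.exp_log h7]
        exact Real.exp_le_exp.2 h4
      calc (kf Y : ℝ) * (primorial (kf Y) : ℝ) ≤
          (4 * (1 + u)) * (Real.exp (8 + c) * Real.exp ((1 + ε / 4) * (2 - ε) * u)) :=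
            mul_le_mul h3 h6 (Nat.cast_nonneg _) (by linarith)
        _ = _ := by rw [hC]; ring)
  filter_upwards [h] with ω hω
  refine LL_of_runs kf (fun Y => primorial (kf Y)) (fun X => primorial_pos _) _ ?_ hω
  filter_upwards [tlog.eventually_ge_atTop 2, eventually_ge_atTop 2] with N h1 h2
  rw [hkf]
  push_cast
  have h3 : (2 - ε) * Real.log (Real.log N) ≤ (2 - ε) * Real.log (Real.log ((2 * (N / 2) + 1 : ℕ) : ℝ)) := by
    apply mul_le_mul_of_nonneg_left _ (by linarith)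
    apply Real.log_le_log (by linarith)
    apply Real.log_le_log (by exact_mod_cast (by omega : 0 < N))
    exact_mod_cast double_half N
  have h4 := Nat.le_ceil ((2 - ε) * Real.log (Real.log ((2 * (N / 2) + 1 : ℕ) : ℝ)))
  push_cast at h3 h4
  linarith

/-- progressions of length `(log N) ^ κ` for small sieves -/
theorem LL_lower2 (hA : ∀ n, MeasurableSet[ℱ n] (A n)) (z : ℕ → ℕ) (hmono : Monotone z) (θ : ℝ) (hθ : 0 ≤ θ)
    (hz : ∀ᶠ m : ℕ in atTop, (z m : ℝ) ≤ θ * Real.log (Real.log m))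
    (hd : ∀ᵐ ω ∂μ, ∀ ε : ℝ, 0 < ε → ∀ᶠ n : ℕ in atTop,
      |dens μ ℱ A n ω - rho2 z (n + 1)| ≤ ε * rho2 z (n + 1))
    (κ : ℝ) (hκ0 : 0 ≤ κ) (hκ1 : κ < 1) (hκ2 : κ + θ < 2) :
    ∀ᵐ ω ∂μ, ∀ᶠ N : ℕ in atTop, Real.log N ^ κ ≤ LL {n | ω ∈ A n} N := by
  have hz4 : ∀ᶠ m : ℕ in atTop, 4 * (z m : ℝ) ≤ Real.log m := by
    filter_upwards [hz, tloglog.eventually (ev_exp (4 * θ) 0 1 one_pos), tloglog.eventually_ge_atTop 1,
      tlog.eventually_gt_atTop 0] with m h1 h2 h3 h4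
    rw [zero_mul, Real.exp_zero, mul_one, one_mul, Real.exp_log h4] at h2
    refine le_trans ?_ h2
    have h5 : Real.log (Real.log (m : ℝ)) ≤ (1 + Real.log (Real.log (m : ℝ))) ^ 2 := by nlinarith
    have h6 : θ * Real.log (Real.log (m : ℝ)) ≤ θ * (1 + Real.log (Real.log (m : ℝ))) ^ 2 :=
      mul_le_mul_of_nonneg_left h5 hθ
    linarith
  obtain ⟨e, he0, he1⟩ : ∃ e : ℝ, 0 < e ∧ κ + (1 + e) * θ < 2 := by
    refine ⟨(2 - κ - θ) / (2 * (θ + 1)), div_pos (by linarith) (by linarith), ?_⟩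
    have h1 : (2 - κ - θ) / (2 * (θ + 1)) * θ ≤ (2 - κ - θ) / 2 := by
      rw [div_mul_eq_mul_div, div_le_div_iff₀ (by linarith) (by norm_num)]
      nlinarith
    nlinarith
  obtain ⟨kf, hkf⟩ : ∃ kf : ℕ → ℕ, kf = fun Y : ℕ => ⌈Real.log ((2 * Y + 1 : ℕ) : ℝ) ^ κ⌉₊ + 1 := ⟨_, rfl⟩
  obtain ⟨c, hc, hprim⟩ := log_primorial_all e he0
  have hkb : ∀ᶠ Y : ℕ in atTop, (kf Y : ℝ) ≤ 6 * Real.exp (κ * Real.log (Real.log Y)) := by
    filter_upwards [loglog_two, tloglog.eventually_ge_atTop 1, log_three_mul, eventually_ge_atTop 1,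
      tlog.eventually_ge_atTop 2] with Y h1 h2 h2' h2'' h2'''
    rw [hkf]
    push_cast
    have hlogY : 0 < Real.log ((2 * Y + 1 : ℕ) : ℝ) := by
      have : Real.log (Y : ℝ) ≤ Real.log ((2 * Y + 1 : ℕ) : ℝ) :=
        Real.log_le_log (by exact_mod_cast h2'') (by exact_mod_cast (by omega : Y ≤ 2 * Y + 1))
      linarith
    have h3 : Real.log ((2 * Y + 1 : ℕ) : ℝ) ^ κ ≤ Real.exp κ * Real.exp (κ * Real.log (Real.log Y)) := by
      rw [Real.rpow_def_of_pos hlogY, ← Real.exp_add]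
      apply Real.exp_le_exp.2
      have := mul_le_mul_of_nonneg_left h1.2.1 hκ0
      nlinarith
    have h4 : Real.exp κ ≤ 3 := by
      have h5 := Real.exp_one_lt_d9
      have h6 : Real.exp κ ≤ Real.exp 1 := Real.exp_le_exp.2 hκ1.le
      linarith
    have h5 : 1 ≤ Real.exp (κ * Real.log (Real.log Y)) := Real.one_le_exp (mul_nonneg hκ0 (by linarith))
    have h6 := Nat.ceil_lt_add_one (show 0 ≤ Real.log ((2 * Y + 1 : ℕ) : ℝ) ^ κ by positivity)
    push_cast at h3 h6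
    nlinarith
  obtain ⟨C, hC⟩ : ∃ C : ℝ, C = 6 * Real.exp ((1 + e) * θ + c) := ⟨_, rfl⟩
  have he2 : 1 ≤ Real.exp ((1 + e) * θ + c) := Real.one_le_exp (by positivity)
  have h3x : Tendsto (fun X : ℕ => 3 * X) atTop atTop := tendsto_id.const_mul_atTop' (by norm_num)
  have h := runs_exist (μ := μ) (ℱ := ℱ) hA z hmono hz4 hd kf (fun Y => primorial (z (3 * Y)))
    (fun X => by rw [hkf]; exact Nat.succ_pos _) (fun X => primorial_pos _)
    (Eventually.of_forall fun X p hp hpz _ => dvd_primorial' hp hpz) C κ (κ + (1 + e) * θ) hκ1 he1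
    (by
      filter_upwards [hkb, tloglog.eventually_ge_atTop 1] with Y h1 h2
      refine h1.trans (mul_le_mul_of_nonneg_right ?_ (Real.exp_pos _).le)
      nlinarith)
    (by
      filter_upwards [hkb, tloglog.eventually_ge_atTop 1, h3x.eventually hz, loglog_two] with Y h1 h2 h3 h3'
      obtain ⟨u, hu⟩ : ∃ u, u = Real.log (Real.log (Y : ℝ)) := ⟨_, rfl⟩
      rw [← hu] at h1 h2 h3' ⊢
      have h4 : Real.log (primorial (z (3 * Y))) ≤ ((1 + e) * θ + c) + (1 + e) * θ * u := by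
        refine (hprim (z (3 * Y))).trans ?_
        have h5 : (z (3 * Y) : ℝ) ≤ θ * (1 + u) := h3.trans (mul_le_mul_of_nonneg_left h3'.2.2 hθ)
        have h6 : (1 + e) * (z (3 * Y) : ℝ) ≤ (1 + e) * (θ * (1 + u)) :=
          mul_le_mul_of_nonneg_left h5 (by positivity)
        nlinarith
      have h6 : (primorial (z (3 * Y)) : ℝ) ≤ Real.exp ((1 + e) * θ + c) * Real.exp ((1 + e) * θ * u) := by
        have h7 : (0 : ℝ) < primorial (z (3 * Y)) := by exact_mod_cast primorial_pos _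
        rw [← Real.exp_add, ← Real.exp_log h7]
        exact Real.exp_le_exp.2 h4
      calc (kf Y : ℝ) * (primorial (z (3 * Y)) : ℝ) ≤
          (6 * Real.exp (κ * u)) * (Real.exp ((1 + e) * θ + c) * Real.exp ((1 + e) * θ * u)) :=
            mul_le_mul h1 h6 (Nat.cast_nonneg _) (by positivity)
        _ = C * 1 * Real.exp ((κ + (1 + e) * θ) * u) := by
            have : Real.exp ((κ + (1 + e) * θ) * u) = Real.exp (κ * u) * Real.exp ((1 + e) * θ * u) := by
              rw [← Real.exp_add]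
              ring_nf
            rw [this, hC]
            ring
        _ ≤ _ := by
            apply mul_le_mul_of_nonneg_right _ (Real.exp_pos _).le
            apply mul_le_mul_of_nonneg_left (by linarith)
            rw [hC]
            positivity)
  filter_upwards [h] with ω hω
  refine LL_of_runs kf (fun Y => primorial (z (3 * Y))) (fun X => primorial_pos _) _ ?_ hω
  filter_upwards [eventually_ge_atTop 2] with N h2
  rw [hkf]
  push_cast
  have h3 : Real.log N ^ κ ≤ Real.log ((2 * (N / 2) + 1 : ℕ) : ℝ) ^ κ := by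
    apply Real.rpow_le_rpow (Real.log_natCast_nonneg N) _ hκ0
    apply Real.log_le_log (by exact_mod_cast (by omega : 0 < N))
    exact_mod_cast double_half N
  have h4 := Nat.le_ceil (Real.log ((2 * (N / 2) + 1 : ℕ) : ℝ) ^ κ)
  push_cast at h3 h4
  linarith

end

/-- the deterministic upper bound -/
theorem LL_upper_det {Q : Set ℕ} (z : ℕ → ℕ) (hmono : Monotone z) (hQ : ∀ n ∈ Q, Rough z n) (η δ : ℝ)
    (hη : 0 < η) (hη1 : η ≤ 1) (hδ : δ = η / 4)
    (hz : ∀ᶠ m : ℕ in atTop, (2 + η) * Real.log (Real.log m) ≤ z m)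
    (hne : ∀ᶠ t : ℕ in atTop, ∃ m, t < m ∧ m ≤ t + ⌊Real.log t ^ (2 + δ)⌋₊ ∧ m ∈ Q) :
    ∀ᶠ X : ℕ in atTop, (LL Q X : ℝ) < (2 + 2 * η) * Real.log (Real.log X) := by
  obtain ⟨y0, hy0⟩ := log_primorial (η / 8) (by positivity)
  obtain ⟨t1, ht1⟩ := eventually_atTop.1 ((hz.and hne).and ((tloglog.eventually_ge_atTop (y0 + 1)).and
    (tlog.eventually_ge_atTop 1)))
  filter_upwards [tloglog.eventually_ge_atTop ((t1 + 3) / η), tloglog.eventually_ge_atTop 1,
    eventually_ge_atTop 3] with X h1 h2 h3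
  by_contra hcon
  push Not at hcon
  obtain ⟨k, hk⟩ : ∃ k, k = LL Q X := ⟨_, rfl⟩
  rw [← hk] at hcon
  have hηu : (t1 : ℝ) + 3 ≤ η * Real.log (Real.log X) := by
    rw [div_le_iff₀ hη] at h1
    linarith
  have hkt : (t1 : ℝ) + 3 + (2 + η) * Real.log (Real.log X) ≤ k := by linarith
  have hk3 : t1 + 3 ≤ k := by
    have : (t1 : ℝ) + 3 ≤ k := by nlinarith
    exact_mod_cast this
  obtain ⟨a, d, ha, hd, haX, hrun⟩ := LL_mem (Q := Q) (X := X) (by rw [← hk]; omega)
  rw [← hk] at haX hrun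
  obtain ⟨b, hb⟩ : ∃ b, b = a + t1 * d := ⟨_, rfl⟩
  have hkd : ∀ i, i ≤ k - 1 → a + i * d ≤ a + (k - 1) * d := fun i hi =>
    Nat.add_le_add_left (Nat.mul_le_mul_right d hi) a
  have hbt : t1 < b := by
    have : t1 * 1 ≤ t1 * d := Nat.mul_le_mul_left _ hd
    omega
  have hbX : b ≤ X := by
    rw [hb]
    exact (hkd t1 (by omega)).trans haX
  obtain ⟨⟨hzb, hneb⟩, hllb, hlb⟩ := ht1 b hbt.le
  -- the difference is at most the gap bound
  have hdK : d ≤ ⌊Real.log b ^ (2 + δ)⌋₊ := by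
    obtain ⟨m, hm1, hm2, hm3⟩ := hneb
    by_contra hlt
    push Not at hlt
    have hm4 : m < a + (t1 + 1) * d := by
      have : a + (t1 + 1) * d = b + d := by rw [hb]; ring
      omega
    have hm5 := (hrun m (by omega) (hm4.le.trans (hkd (t1 + 1) (by omega)))).1 hm3
    obtain ⟨i, -, hi⟩ := hm5
    rw [hi] at hm1 hm4
    rw [hb] at hm1
    have h5 : t1 * d < i * d := by omega
    have h6 : i * d < (t1 + 1) * d := by omega
    have h7 := Nat.lt_of_mul_lt_mul_right h5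
    have h8 := Nat.lt_of_mul_lt_mul_right h6
    omega
  -- small primes divide the difference
  obtain ⟨y, hy⟩ : ∃ y, y = min (k - t1) (z b) := ⟨_, rfl⟩
  have hdiv : ∀ p : ℕ, p.Prime → p ≤ y → p ∣ d := by
    intro p hp hpy
    by_contra hpd
    haveI : Fact p.Prime := ⟨hp⟩
    have hd0 : (d : ZMod p) ≠ 0 := by
      rw [Ne, ZMod.natCast_eq_zero_iff]
      exact hpd
    obtain ⟨x, hx⟩ : ∃ x : ZMod p, x = -(b : ZMod p) / (d : ZMod p) := ⟨_, rfl⟩
    have hjp : x.val < p := ZMod.val_lt x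
    have h4 : p ∣ b + x.val * d := by
      rw [← ZMod.natCast_eq_zero_iff]
      push_cast
      rw [ZMod.natCast_zmod_val, hx, div_mul_cancel₀ _ hd0]
      ring
    have h5 : b + x.val * d = a + (t1 + x.val) * d := by rw [hb]; ring
    have h6 : t1 + x.val < k := by
      have : p ≤ k - t1 := by omega
      omega
    have h7 : b + x.val * d ∈ Q := by
      rw [h5]
      exact (hrun _ (Nat.le_add_right _ _) (hkd _ (by omega))).2 ⟨_, h6, rfl⟩
    refine hQ _ h7 p hp ?_ h4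
    have h8 : p ≤ z b := by omega
    exact h8.trans (hmono (Nat.le_add_right _ _))
  have hprim : primorial y ∣ d := by
    unfold primorial
    apply Finset.prod_primes_dvd
    · intro p hp
      exact (Finset.mem_filter.1 hp).2.prime
    · intro p hp
      rw [Finset.mem_filter, Finset.mem_range] at hp
      exact hdiv p hp.2 (by omega)
  have hle : primorial y ≤ d := Nat.le_of_dvd (by omega) hprim
  -- comparison
  obtain ⟨u, hu⟩ : ∃ u, u = Real.log (Real.log (b : ℝ)) := ⟨_, rfl⟩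
  rw [← hu] at hllb hzb
  have hu0 : 0 < u := by
    have : (0 : ℝ) ≤ y0 := Nat.cast_nonneg _
    linarith
  have hb0 : (0 : ℝ) < b := by exact_mod_cast (by omega : 0 < b)
  have huX : u ≤ Real.log (Real.log X) := by
    rw [hu]
    apply Real.log_le_log (by linarith)
    apply Real.log_le_log hb0
    exact_mod_cast hbX
  have hyu : (2 + η) * u ≤ y := by
    rw [hy, Nat.cast_min]
    refine le_min ?_ hzb
    rw [Nat.cast_sub (by omega)]
    have : (2 + η) * u ≤ (2 + η) * Real.log (Real.log X) := mul_le_mul_of_nonneg_left huX (by linarith)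
    linarith
  have hyy : y0 ≤ y := by
    have h5 : (y0 : ℝ) ≤ y := by nlinarith
    exact_mod_cast h5
  have hp1 := (hy0 y hyy).1
  have hd0 : (0 : ℝ) < d := by exact_mod_cast hd
  have hp2 : Real.log (primorial y) ≤ Real.log d :=
    Real.log_le_log (by exact_mod_cast primorial_pos y) (by exact_mod_cast hle)
  have hlb0 : 0 < Real.log (b : ℝ) := by linarith
  have hd2 : Real.log d ≤ (2 + δ) * u := by
    have h5 : (d : ℝ) ≤ Real.log b ^ (2 + δ) := by
      refine le_trans (by exact_mod_cast hdK) (Nat.floor_le (by positivity))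
    have h6 := Real.log_le_log hd0 h5
    rwa [Real.log_rpow hlb0, ← hu] at h6
  have h9 : (1 - η / 8) * ((2 + η) * u) ≤ (1 - η / 8) * y :=
    mul_le_mul_of_nonneg_left hyu (by linarith)
  have h10 : (1 - η / 8) * ((2 + η) * u) ≤ (2 + δ) * u := by linarith
  rw [← mul_assoc] at h10
  have h11 := le_of_mul_le_mul_right h10 hu0
  rw [hδ] at h11
  nlinarith

section
variable {Ω : Type} {m0 : MeasurableSpace Ω} {μ : Measure Ω} [IsProbabilityMeasure μ]
  {ℱ : Filtration ℕ m0} {A : ℕ → Set Ω}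

/-- the upper bound -/
theorem LL_upper (hA : ∀ n, MeasurableSet[ℱ n] (A n)) (z : ℕ → ℕ) (hmono : Monotone z)
    (hcop : ∀ n, ¬ Rough z n → A n = ∅)
    (hz1 : ∀ᶠ m : ℕ in atTop, (z m : ℝ) ≤ Real.log m ^ ((1 : ℝ) / 100)) (η : ℝ) (hη : 0 < η)
    (hz2 : ∀ᶠ m : ℕ in atTop, (2 + η) * Real.log (Real.log m) ≤ z m)
    (hd : ∀ᵐ ω ∂μ, ∀ ε : ℝ, 0 < ε → ∀ᶠ n : ℕ in atTop,
      |dens μ ℱ A n ω - rho2 z (n + 1)| ≤ ε * rho2 z (n + 1)) (ε : ℝ) (hε : 0 < ε) :
    ∀ᵐ ω ∂μ, ∀ᶠ X : ℕ in atTop, (LL {n | ω ∈ A n} X : ℝ) < (2 + ε) * Real.log (Real.log X) := by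
  obtain ⟨e, he⟩ : ∃ e, e = min 1 (min (ε / 2) η) := ⟨_, rfl⟩
  have he0 : 0 < e := by rw [he]; positivity
  have he1 : e ≤ 1 := by rw [he]; exact min_le_left _ _
  have he2 : e ≤ ε / 2 := by rw [he]; exact (min_le_right _ _).trans (min_le_left _ _)
  have he3 : e ≤ η := by rw [he]; exact (min_le_right _ _).trans (min_le_right _ _)
  have h1 := nonempty (μ := μ) (ℱ := ℱ) hA (rho2 z) (rho2_nonneg z) (rho2_le z) hd
    (fun t => ⌊Real.log t ^ (2 + e / 4)⌋₊) (rho2_window z hmono hz1 (e / 4) (by positivity))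
  filter_upwards [h1] with ω hω
  have h2 := LL_upper_det (Q := {n | ω ∈ A n}) z hmono (fun n hn => by
      by_contra hcon
      have := hcop n hcon
      rw [Set.mem_ofPred_eq, this] at hn
      exact hn) e (e / 4) he0 he1 rfl (by
      filter_upwards [hz2, tloglog.eventually_ge_atTop 0] with m h3 h4
      refine le_trans ?_ h3
      exact mul_le_mul_of_nonneg_right (by linarith) h4) hω
  filter_upwards [h2, tloglog.eventually_ge_atTop 0] with X h3 h4
  refine h3.trans_le (mul_le_mul_of_nonneg_right (by linarith) h4)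

end

end Pool.Agent.U310.Pat
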